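import Mathlib

/-!
# Baire category tools (for MP_431ff4_lc)
-/

namespace Pool.Agent.EDB

open Topology Filter

/-! ### General facts -/

section

variable {X Y : Type*} [TopologicalSpace X] [TopologicalSpace Y]

/-- A nonempty open set is not meager. -/
theorem exists_of_res [BaireSpace X] {P : X → Prop} (hP : ∀ᶠ x in residual X, P x) {U : Set X}
    (hU : IsOpen U) (hne : U.Nonempty) : ∃ x ∈ U, P x := by
  have h := (dense_of_mem_residual hP).inter_open_nonempty U hU hne
  obtain ⟨x, hx, hx'⟩ := h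
  exact ⟨x, hx, hx'⟩

/-- Kuratowski-Ulam, for residual sets. -/
theorem res_prod [SecondCountableTopology Y] {P : X × Y → Prop}
    (hP : ∀ᶠ z in residual (X × Y), P z) :
    ∀ᶠ x in residual X, ∀ᶠ y in residual Y, P (x, y) := by
  obtain ⟨S, hO, hD, hc, hS⟩ := mem_residual_iff.1 hP
  have key : ∀ t ∈ S, ∀ᶠ x in residual X, ∀ᶠ y in residual Y, (x, y) ∈ t := by
    intro t ht
    have h1 : ∀ V : TopologicalSpace.countableBasis Y, ∀ᶠ x in residual X,
        ∃ y ∈ (V : Set Y), (x, y) ∈ t := by
      intro V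
      have hVo : IsOpen (V : Set Y) := TopologicalSpace.isOpen_of_mem_countableBasis V.2
      have hVn : (V : Set Y).Nonempty := TopologicalSpace.nonempty_of_mem_countableBasis V.2
      refine residual_of_dense_open (s := {x | ∃ y ∈ (V : Set Y), (x, y) ∈ t}) ?_ ?_
      · have h2 : {x | ∃ y ∈ (V : Set Y), (x, y) ∈ t} =
            Prod.fst '' (t ∩ (Prod.snd ⁻¹' (V : Set Y))) := by
          ext x
          constructor
          · rintro ⟨y, hy, hxy⟩
            exact ⟨(x, y), ⟨hxy, hy⟩, rfl⟩
          · rintro ⟨⟨x', y⟩, ⟨hxy, hy⟩, rfl⟩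
            exact ⟨y, hy, hxy⟩
        rw [h2]
        exact isOpenMap_fst _ ((hO t ht).inter (hVo.preimage continuous_snd))
      · rw [dense_iff_inter_open]
        intro U hU hUn
        have h3 := (hD t ht).inter_open_nonempty (U ×ˢ (V : Set Y)) (hU.prod hVo)
          (hUn.prod hVn)
        obtain ⟨⟨x, y⟩, ⟨hx, hy⟩, hxy⟩ := h3
        exact ⟨x, hx, y, hy, hxy⟩
    have hcount : Countable (TopologicalSpace.countableBasis Y) :=
      (TopologicalSpace.countable_countableBasis Y).to_subtype
    have h2 := eventually_countable_forall.2 h1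
    filter_upwards [h2] with x hx
    refine residual_of_dense_open (s := {y | (x, y) ∈ t}) ?_ ?_
    · exact (hO t ht).preimage (by fun_prop : Continuous fun y : Y => (x, y))
    · rw [(TopologicalSpace.isBasis_countableBasis Y).dense_iff]
      intro V hV hVn
      obtain ⟨y, hy, hxy⟩ := hx ⟨V, hV⟩
      exact ⟨y, hy, hxy⟩
  have hSc : Countable S := hc.to_subtype
  have h4 : ∀ᶠ x in residual X, ∀ t : S, ∀ᶠ y in residual Y, (x, y) ∈ (t : Set (X × Y)) :=
    eventually_countable_forall.2 fun t => key t.1 t.2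
  filter_upwards [h4] with x hx
  have h5 := eventually_countable_forall.2 hx
  filter_upwards [h5] with y hy
  exact hS (Set.mem_sInter.2 fun t ht => hy ⟨t, ht⟩)

/-- Countably many sets with the Baire property which cover: one is residual in an open set. -/
theorem exists_box [BaireSpace X] [Nonempty X] {ι : Type*} [Countable ι] {S : ι → Set X}
    (hS : ∀ i, BaireMeasurableSet (S i)) (hcov : ∀ᶠ x in residual X, ∃ i, x ∈ S i) :
    ∃ i, ∃ U : Set X, IsOpen U ∧ U.Nonempty ∧ ∀ᶠ x in residual X, x ∈ U → x ∈ S i := by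
  choose U hU hSU using fun i => (hS i).residualEq_isOpen
  by_contra hcon0
  have hcon : ∀ i (U : Set X), IsOpen U → U.Nonempty →
      ¬ ∀ᶠ x in residual X, x ∈ U → x ∈ S i := fun i U h1 h2 h3 => hcon0 ⟨i, U, h1, h2, h3⟩
  have h1 : ∀ i, ∀ᶠ x in residual X, x ∉ S i := by
    intro i
    have h2 : ∀ᶠ x in residual X, (x ∈ S i ↔ x ∈ U i) := (hSU i).mem_iff
    rcases (U i).eq_empty_or_nonempty with h3 | h3
    · filter_upwards [h2] with x hx
      rw [hx, h3]
      exact Set.notMem_empty x
    · exact absurd (by filter_upwards [h2] with x hx using hx.2) (hcon i (U i) (hU i) h3)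
  have h2 := eventually_countable_forall.2 h1
  have h3 : ∀ᶠ x in residual X, False := by
    filter_upwards [h2, hcov] with x hx hx'
    obtain ⟨i, hi⟩ := hx'
    exact hx i hi
  obtain ⟨x, -, hx⟩ := exists_of_res h3 isOpen_univ Set.univ_nonempty
  exact hx

/-- A set with the Baire property which is not meager is residual in an open set. -/
theorem exists_open_of_not [BaireSpace X] {S : Set X} (hS : BaireMeasurableSet S)
    (h : ¬ ∀ᶠ x in residual X, x ∉ S) :
    ∃ U : Set X, IsOpen U ∧ U.Nonempty ∧ ∀ᶠ x in residual X, x ∈ U → x ∈ S := by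
  obtain ⟨U, hU, hSU⟩ := hS.residualEq_isOpen
  have h2 : ∀ᶠ x in residual X, (x ∈ S ↔ x ∈ U) := hSU.mem_iff
  refine ⟨U, hU, ?_, by filter_upwards [h2] with x hx using hx.2⟩
  rw [Set.nonempty_iff_ne_empty]
  rintro rfl
  apply h
  filter_upwards [h2] with x hx
  rw [hx]
  exact Set.notMem_empty x

end

/-! ### Cylinders -/

section

variable {α : Type} [TopologicalSpace α] [DiscreteTopology α]

/-- The sequences which agree with `x` below `N`. -/
def cyl (x : ℕ → α) (N : ℕ) : Set (ℕ → α) := {y | ∀ i < N, y i = x i}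

omit [TopologicalSpace α] [DiscreteTopology α] in
theorem mem_cyl {x y : ℕ → α} {N : ℕ} : y ∈ cyl x N ↔ ∀ i < N, y i = x i := Iff.rfl

omit [TopologicalSpace α] [DiscreteTopology α] in
theorem self_mem_cyl (x : ℕ → α) (N : ℕ) : x ∈ cyl x N := fun _ _ => rfl

theorem isOpen_cyl (x : ℕ → α) (N : ℕ) : IsOpen (cyl x N) :=
  (PiNat.isTopologicalBasis_cylinders fun _ => α).isOpen ⟨x, N, rfl⟩

theorem exists_cyl {U : Set (ℕ → α)} (hU : IsOpen U) {x : ℕ → α} (hx : x ∈ U) :
    ∃ N, ∀ M, N ≤ M → cyl x M ⊆ U := by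
  obtain ⟨V, ⟨y, N, rfl⟩, hxV, hVU⟩ :=
    (PiNat.isTopologicalBasis_cylinders fun _ => α).exists_subset_of_mem_open hx hU
  refine ⟨N, fun M hM z hz => hVU fun i hi => ?_⟩
  rw [hz i (lt_of_lt_of_le hi hM)]
  exact hxV i hi

/-- A box inside an open subset of a product. -/
theorem exists_cyl_prod {β : Type} [TopologicalSpace β] [DiscreteTopology β]
    {U : Set ((ℕ → α) × (ℕ → β))} (hU : IsOpen U) {x : (ℕ → α) × (ℕ → β)} (hx : x ∈ U) :
    ∃ N, ∀ y z, y ∈ cyl x.1 N → z ∈ cyl x.2 N → (y, z) ∈ U := by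
  obtain ⟨V, W, hV, hW, h1, h2, h3⟩ := isOpen_prod_iff.1 hU x.1 x.2 hx
  obtain ⟨N, hN⟩ := exists_cyl hV h1
  obtain ⟨M, hM⟩ := exists_cyl hW h2
  refine ⟨max N M, fun y z hy hz => h3 ⟨hN _ (le_max_left _ _) hy, hM _ (le_max_right _ _) hz⟩⟩

/-- The complement of a point is residual. -/
theorem res_ne [Nontrivial α] (x : ℕ → α) : ∀ᶠ y in residual (ℕ → α), y ≠ x := by
  refine residual_of_dense_open (s := {y | y ≠ x}) ?_ ?_
  · exact isOpen_compl_singleton (x := x)
  · rw [dense_iff_inter_open]
    rintro U hU ⟨z, hz⟩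
    obtain ⟨N, hN⟩ := exists_cyl hU hz
    obtain ⟨b, hb⟩ := exists_ne (x N)
    refine ⟨Function.update z N b, hN N le_rfl ?_, ?_⟩
    · intro i hi
      rw [Function.update_of_ne hi.ne]
    · intro h
      apply hb
      have h1 := congrFun h N
      rwa [Function.update_self] at h1

theorem res_notMem_countable [Nontrivial α] {K : Set (ℕ → α)} (hK : K.Countable) :
    ∀ᶠ y in residual (ℕ → α), y ∉ K := by
  have hc : Countable K := hK.to_subtype
  have h := eventually_countable_forall.2 fun x : K => res_ne (x : ℕ → α)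
  filter_upwards [h] with y hy hyK
  exact hy ⟨y, hyK⟩ rfl

/-! ### Finite approximations -/

/-- The first `k` values. -/
def app (g : ℕ → α) (k : ℕ) : List α := (List.range k).map g

omit [TopologicalSpace α] [DiscreteTopology α] in
theorem app_length (g : ℕ → α) (k : ℕ) : (app g k).length = k := by simp [app]

omit [TopologicalSpace α] [DiscreteTopology α] in
theorem app_getElem? (g : ℕ → α) {k i : ℕ} (hi : i < k) : (app g k)[i]? = some (g i) := by
  simp [app, List.getElem?_map, List.getElem?_range hi]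

omit [TopologicalSpace α] [DiscreteTopology α] in
theorem app_take (g : ℕ → α) {k m : ℕ} (h : k ≤ m) : (app g m).take k = app g k := by
  unfold app
  rw [← List.map_take, List.take_range, min_eq_left h]

omit [TopologicalSpace α] [DiscreteTopology α] in
theorem app_congr {g h : ℕ → α} {k : ℕ} (H : ∀ i < k, g i = h i) : app g k = app h k := by
  unfold app
  refine List.map_congr_left fun i hi => H i (List.mem_range.1 hi)

/-- If `Y` is `Φ c (Q g)` for some of countably many `c`, for a nonmeager set of `g`, where `Q g`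
is approximated by `q s` for the finite initial parts `s` of `g`, then `Y` is the union of the
`Φ c (q s)`, for one `c` and all `s` extending one `s₀`. -/
theorem somewhere [Nonempty α] {ι : Type*} [Countable ι] {Y : Set ℕ}
    {Φ : ι → Set ℕ → Set ℕ} (hmono : ∀ c B C, B ⊆ C → Φ c B ⊆ Φ c C)
    (hcompact : ∀ c B n, n ∈ Φ c B → ∃ l : List ℕ, (∀ y ∈ l, y ∈ B) ∧ n ∈ Φ c {y | y ∈ l})
    {Q : (ℕ → α) → Set ℕ} {q : List α → Set ℕ}
    (hq1 : ∀ g k, q (app g k) ⊆ Q g)
    (hq2 : ∀ g m, m ∈ Q g → ∃ k, ∀ k', k ≤ k' → m ∈ q (app g k'))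
    (h : ∃ᶠ g in residual (ℕ → α), ∃ c, Y = Φ c (Q g)) :
    ∃ c, ∃ s₀ : List α, (∃ g N, s₀ = app g N) ∧
      Y = {n | ∃ s : List α, s.take s₀.length = s₀ ∧ n ∈ Φ c (q s)} := by
  have h1 : ∃ c, ∃ᶠ g in residual (ℕ → α), Y = Φ c (Q g) := by
    by_contra hcon
    apply h
    have h2 : ∀ c, ∀ᶠ g in residual (ℕ → α), ¬ Y = Φ c (Q g) := fun c =>
      not_frequently.1 (fun h' => hcon ⟨c, h'⟩)
    have h3 := eventually_countable_forall.2 h2
    filter_upwards [h3] with g hg
    rintro ⟨c, hc⟩
    exact hg c hc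
  obtain ⟨c, hc⟩ := h1
  let E : Set (ℕ → α) := {g | Y = Φ c (Q g)}
  have h2 : (interior (closure E)).Nonempty := by
    rw [Set.nonempty_iff_ne_empty]
    intro hemp
    apply hc
    have h3 : (closure E)ᶜ ∈ residual (ℕ → α) := by
      refine residual_of_dense_open isClosed_closure.isOpen_compl ?_
      rw [← interior_eq_empty_iff_dense_compl]
      exact hemp
    filter_upwards [h3] with g hg hgE
    exact hg (subset_closure hgE)
  obtain ⟨g₀, hg₀⟩ := h2
  obtain ⟨N, hN⟩ := exists_cyl isOpen_interior hg₀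
  have hdense : ∀ g k, N ≤ k → g ∈ cyl g₀ N → ∃ g' ∈ cyl g k, Y = Φ c (Q g') := by
    intro g k hk hg
    have h3 : g ∈ closure E := interior_subset (hN N le_rfl hg)
    obtain ⟨g', h4, h5⟩ := mem_closure_iff.1 h3 _ (isOpen_cyl g k) (self_mem_cyl g k)
    exact ⟨g', h4, h5⟩
  refine ⟨c, app g₀ N, ⟨g₀, N, rfl⟩, Set.ext fun n => ?_⟩
  rw [app_length]
  constructor
  · intro hn
    obtain ⟨g, hg, hY⟩ := hdense g₀ N le_rfl (self_mem_cyl _ _)
    rw [hY] at hn
    obtain ⟨l, hl, hn'⟩ := hcompact _ _ _ hn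
    have h4 : ∀ y, ∃ k, y ∈ l → ∀ k', k ≤ k' → y ∈ q (app g k') := by
      intro y
      by_cases hy : y ∈ l
      · obtain ⟨k, hk⟩ := hq2 g y (hl y hy)
        exact ⟨k, fun _ => hk⟩
      · exact ⟨0, fun h => absurd h hy⟩
    choose k hk using h4
    let K := max N (l.toFinset.sup k)
    refine ⟨app g K, ?_, hmono c _ _ (fun y hy => ?_) hn'⟩
    · rw [app_take g (le_max_left _ _)]
      exact app_congr hg
    · refine hk y hy K (le_max_of_le_right ?_)
      exact Finset.le_sup (f := k) (List.mem_toFinset.2 hy)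
  · rintro ⟨s, hs, hn⟩
    let g₁ : ℕ → α := fun i => (s[i]?).getD (g₀ i)
    have h5 : N ≤ s.length := by
      have h6 := congrArg List.length hs
      rw [List.length_take, app_length] at h6
      exact min_eq_left_iff.1 h6
    have h6 : app g₁ s.length = s := by
      refine List.ext_getElem? fun i => ?_
      by_cases hi : i < s.length
      · rw [app_getElem? _ hi]
        simp [g₁, hi]
      · rw [List.getElem?_eq_none (by rw [app_length]; exact not_lt.1 hi),
          List.getElem?_eq_none (not_lt.1 hi)]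
    have h7 : g₁ ∈ cyl g₀ N := by
      intro i hi
      have h8 : s[i]? = some (g₀ i) := by
        rw [← List.getElem?_take_of_lt hi, hs, app_getElem? _ hi]
      simp only [g₁, h8, Option.getD_some]
    obtain ⟨g, hg, hY⟩ := hdense g₁ s.length h5 h7
    rw [hY]
    refine hmono c _ _ ?_ hn
    have h9 : app g s.length = s := by
      rw [← h6, app_length]
      exact app_congr hg
    rw [← h9]
    exact hq1 g _

end

/-! ### Flips -/

/-- Pointwise exclusive or, as a homeomorphism of the second argument. -/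
def xrHomeo (e : ℕ → Bool) : (ℕ → Bool) ≃ₜ (ℕ → Bool) where
  toFun x := fun k => xor (e k) (x k)
  invFun x := fun k => xor (e k) (x k)
  left_inv x := by funext k; simp
  right_inv x := by funext k; simp
  continuous_toFun := by
    refine continuous_pi fun k => ?_
    exact (continuous_of_discreteTopology (f := fun b : Bool => xor (e k) b)).comp
      (continuous_apply k)
  continuous_invFun := by
    refine continuous_pi fun k => ?_
    exact (continuous_of_discreteTopology (f := fun b : Bool => xor (e k) b)).comp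
      (continuous_apply k)

theorem xrHomeo_apply (e x : ℕ → Bool) (k : ℕ) : xrHomeo e x k = xor (e k) (x k) := rfl

/-- Residual sets are invariant under homeomorphisms. -/
theorem res_homeo {X Y : Type*} [TopologicalSpace X] [TopologicalSpace Y] (h : X ≃ₜ Y)
    {P : Y → Prop} (hP : ∀ᶠ y in residual Y, P y) : ∀ᶠ x in residual X, P (h x) :=
  (tendsto_residual_of_isOpenMap h.continuous h.isOpenMap).eventually hP

/-- The characteristic function of a finite set. -/
def fl (E : Finset ℕ) : ℕ → Bool := fun k => decide (k ∈ E)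

/-- ONE BIT. A map into `Set ℕ` with the Baire property which is not constant on a residual subset
of a cylinder has a coordinate which is, on a smaller set given by finitely many conditions, equal
to one coordinate of the argument or to its negation. -/
theorem one_bit {H : (ℕ → Bool) → Set ℕ} (hH : ∀ n, BaireMeasurableSet {A | n ∈ H A})
    (σ : ℕ → Bool) (N : ℕ)
    (hcon : ¬ ∃ c : Set ℕ, ∀ᶠ A in residual (ℕ → Bool), A ∈ cyl σ N → H A = c) :
    ∃ n p M : ℕ, ∃ b : Bool, ∃ δ : ℕ → Bool, N ≤ p ∧ p < M ∧ (∀ i < N, δ i = σ i) ∧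
      ∀ᶠ A in residual (ℕ → Bool), (∀ i < M, i ≠ p → A i = δ i) → (n ∈ H A ↔ A p = b) := by
  by_contra hno0
  have hno : ∀ (n p M : ℕ) (b : Bool) (δ : ℕ → Bool), N ≤ p → p < M → (∀ i < N, δ i = σ i) →
      ¬ ∀ᶠ A in residual (ℕ → Bool), (∀ i < M, i ≠ p → A i = δ i) → (n ∈ H A ↔ A p = b) :=
    fun n p M b δ h1 h2 h3 h4 => hno0 ⟨n, p, M, b, δ, h1, h2, h3, h4⟩
  -- a nonmeager set with the Baire property inside the cylinder contains most of a cylinder
  have hcl : IsClosed (cyl σ N) := by
    have h1 : cyl σ N = ⋂ i : ℕ, ⋂ _ : i < N, {A : ℕ → Bool | A i = σ i} := by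
      ext A
      simp [cyl]
    rw [h1]
    refine isClosed_iInter fun i => isClosed_iInter fun _ => ?_
    exact isClosed_eq (continuous_apply i) continuous_const
  have key : ∀ S : Set (ℕ → Bool), BaireMeasurableSet S → S ⊆ cyl σ N →
      (¬ ∀ᶠ A in residual (ℕ → Bool), A ∉ S) →
      ∀ p, ∃ δ M, p < M ∧ N ≤ M ∧ (∀ i < N, δ i = σ i) ∧
        ∀ᶠ A in residual (ℕ → Bool), A ∈ cyl δ M → A ∈ S := by
    intro S hS hsub hnm p
    obtain ⟨U, hU, hUn, hUS⟩ := exists_open_of_not hS hnm
    have h1 : U ⊆ cyl σ N := by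
      intro A hA
      by_contra hA'
      have h2 : IsOpen (U ∩ (cyl σ N)ᶜ) := hU.inter hcl.isOpen_compl
      obtain ⟨B, hB, hB'⟩ := exists_of_res hUS h2 ⟨A, hA, hA'⟩
      exact hB.2 (hsub (hB' hB.1))
    obtain ⟨δ, hδ⟩ := hUn
    obtain ⟨M, hM⟩ := exists_cyl hU hδ
    refine ⟨δ, max (max M (p + 1)) N, ?_, le_max_right _ _, h1 hδ, ?_⟩
    · exact lt_max_of_lt_left (lt_max_of_lt_right (Nat.lt_succ_self p))
    · filter_upwards [hUS] with A hA hA'
      exact hA (hM _ (le_max_of_le_left (le_max_left _ _)) hA')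
  have hxr : ∀ (e : ℕ → Bool) (n : ℕ), BaireMeasurableSet {A | n ∈ H (xrHomeo e A)} :=
    fun e n => (hH n).preimage (xrHomeo e).continuous (xrHomeo e).isOpenMap
  have hcylB : BaireMeasurableSet (cyl σ N) := (isOpen_cyl σ N).baireMeasurableSet
  -- flips beyond `N` do not change `H`
  have h1 : ∀ p n, N ≤ p → ∀ᶠ A in residual (ℕ → Bool), A ∈ cyl σ N → n ∈ H A →
      n ∈ H (xrHomeo (fl {p}) A) := by
    intro p n hp
    by_contra hcon'
    obtain ⟨δ, M, hpM, -, hδσ, hδ⟩ := key
      (cyl σ N ∩ ({A | n ∈ H A} ∩ {A | n ∈ H (xrHomeo (fl {p}) A)}ᶜ))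
      (hcylB.inter ((hH n).inter (hxr _ n).compl)) (fun A hA => hA.1) (by
        intro hall
        apply hcon'
        filter_upwards [hall] with A hA h2 h3
        by_contra h4
        exact hA ⟨h2, h3, h4⟩) p
    apply hno n p M (δ p) δ hp hpM hδσ
    have hδ' := res_homeo (xrHomeo (fl {p})) hδ
    filter_upwards [hδ, hδ'] with A hA hA' hAM
    constructor
    · intro hn
      by_contra hne
      have h5 : xrHomeo (fl {p}) A ∈ cyl δ M := by
        intro i hi
        rw [xrHomeo_apply]
        by_cases hip : i = p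
        · subst hip
          simp only [fl, Finset.mem_singleton, decide_true, Bool.true_xor]
          exact (Bool.eq_not_of_ne (Ne.symm hne)).symm
        · simp only [fl, Finset.mem_singleton, hip, decide_false, Bool.false_xor]
          exact hAM i hi hip
      have h6 := (hA' h5).2.2
      apply h6
      have h7 : xrHomeo (fl {p}) (xrHomeo (fl {p}) A) = A := (xrHomeo (fl {p})).left_inv A
      show n ∈ H (xrHomeo (fl {p}) (xrHomeo (fl {p}) A))
      rw [h7]
      exact hn
    · intro hb
      refine (hA ?_).2.1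
      intro i hi
      by_cases hip : i = p
      · rw [hip]
        exact hb
      · exact hAM i hi hip
  have hcylfl : ∀ (E : Finset ℕ), (∀ i ∈ E, N ≤ i) → ∀ A ∈ cyl σ N,
      xrHomeo (fl E) A ∈ cyl σ N := by
    intro E hE A hA i hi
    rw [xrHomeo_apply]
    have h2 : i ∉ E := fun h => absurd (hE i h) (not_le.2 hi)
    simp only [fl, h2, decide_false, Bool.false_xor]
    exact hA i hi
  have h2 : ∀ p n, N ≤ p → ∀ᶠ A in residual (ℕ → Bool), A ∈ cyl σ N →
      (n ∈ H (xrHomeo (fl {p}) A) ↔ n ∈ H A) := by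
    intro p n hp
    have h3 := h1 p n hp
    have h4 := res_homeo (xrHomeo (fl {p})) h3
    filter_upwards [h3, h4] with A hA hA' hAσ
    constructor
    · intro h5
      have h6 := hA' (hcylfl {p} (by simpa using hp) A hAσ) h5
      have h7 : xrHomeo (fl {p}) (xrHomeo (fl {p}) A) = A := (xrHomeo (fl {p})).left_inv A
      rwa [h7] at h6
    · exact hA hAσ
  have h3 : ∀ (E : Finset ℕ), (∀ i ∈ E, N ≤ i) → ∀ n, ∀ᶠ A in residual (ℕ → Bool),
      A ∈ cyl σ N → (n ∈ H (xrHomeo (fl E) A) ↔ n ∈ H A) := by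
    intro E
    induction E using Finset.induction_on with
    | empty =>
      intro _ n
      refine Eventually.of_forall fun A _ => ?_
      have h4 : xrHomeo (fl ∅) A = A := by
        funext k
        simp [xrHomeo_apply, fl]
      rw [h4]
    | insert p E hpE ih =>
      intro hE n
      have h4 := ih (fun i hi => hE i (Finset.mem_insert_of_mem hi)) n
      have h5 := res_homeo (xrHomeo (fl E)) (h2 p n (hE p (Finset.mem_insert_self p E)))
      filter_upwards [h4, h5] with A hA hA' hAσ
      have h6 : xrHomeo (fl (insert p E)) A = xrHomeo (fl {p}) (xrHomeo (fl E) A) := by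
        funext k
        simp only [xrHomeo_apply, fl, Finset.mem_insert, Finset.mem_singleton]
        by_cases hk : k = p
        · subst hk
          simp [hpE]
        · simp [hk]
      rw [h6, hA' (hcylfl E (fun i hi => hE i (Finset.mem_insert_of_mem hi)) A hAσ)]
      exact hA hAσ
  -- so `H` is constant on the cylinder
  apply hcon
  refine ⟨{n | ∀ᶠ A in residual (ℕ → Bool), A ∈ cyl σ N → n ∈ H A}, ?_⟩
  have h4 : ∀ n, ∀ᶠ A in residual (ℕ → Bool), A ∈ cyl σ N → (n ∈ H A ↔
      n ∈ {n | ∀ᶠ A in residual (ℕ → Bool), A ∈ cyl σ N → n ∈ H A}) := by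
    intro n
    by_cases h5 : ∀ᶠ A in residual (ℕ → Bool), A ∉ cyl σ N ∩ {A | n ∈ H A}
    · filter_upwards [h5] with A hA hAσ
      have h6 : n ∉ H A := fun h => hA ⟨hAσ, h⟩
      refine iff_of_false h6 fun h7 => ?_
      obtain ⟨B, hB, hB'⟩ := exists_of_res (h5.and h7) (isOpen_cyl σ N) ⟨σ, self_mem_cyl σ N⟩
      exact hB'.1 ⟨hB, hB'.2 hB⟩
    · obtain ⟨δ, M, -, hNM, hδσ, hδ⟩ := key _ (hcylB.inter (hH n)) (fun A hA => hA.1) h5 0
      have h6 : ∀ᶠ A in residual (ℕ → Bool), A ∈ cyl σ N → n ∈ H A := by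
        have h7 : ∀ᶠ A in residual (ℕ → Bool), ∀ E : Finset ℕ,
            (∀ i ∈ E, N ≤ i) → A ∈ cyl σ N → (n ∈ H (xrHomeo (fl E) A) ↔ n ∈ H A) := by
          refine eventually_countable_forall.2 fun E => ?_
          by_cases hE : ∀ i ∈ E, N ≤ i
          · filter_upwards [h3 E hE n] with A hA _
            exact hA
          · exact Eventually.of_forall fun A h => absurd h hE
        have h8 : ∀ᶠ A in residual (ℕ → Bool), ∀ E : Finset ℕ,
            xrHomeo (fl E) A ∈ cyl δ M →
              xrHomeo (fl E) A ∈ cyl σ N ∩ {A | n ∈ H A} :=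
          eventually_countable_forall.2 fun E => res_homeo (xrHomeo (fl E)) hδ
        filter_upwards [h7, h8] with A hA hA' hAσ
        let E : Finset ℕ := (Finset.range M).filter fun i => A i ≠ δ i
        have hE : ∀ i ∈ E, N ≤ i := by
          intro i hi
          by_contra hiN
          exact (Finset.mem_filter.1 hi).2 ((hAσ i (not_le.1 hiN)).trans
            (hδσ i (not_le.1 hiN)).symm)
        have h9 : xrHomeo (fl E) A ∈ cyl δ M := by
          intro i hi
          rw [xrHomeo_apply]
          by_cases hi' : A i = δ i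
          · have h10 : i ∉ E := fun h => (Finset.mem_filter.1 h).2 hi'
            simp only [fl, h10, decide_false, Bool.false_xor]
            exact hi'
          · have h10 : i ∈ E := Finset.mem_filter.2 ⟨Finset.mem_range.2 hi, hi'⟩
            simp only [fl, h10, decide_true, Bool.true_xor]
            exact (Bool.eq_not_of_ne (Ne.symm hi')).symm
        exact (hA E hE hAσ).1 (hA' E h9).2
      filter_upwards [h6] with A hA hAσ
      exact iff_of_true (hA hAσ) h6
  have h5 := eventually_countable_forall.2 h4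
  filter_upwards [h5] with A hA hAσ
  exact Set.ext fun n => hA n hAσ

end Pool.Agent.EDB
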