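import Mathlib

/-!
# Recursively enumerable predicates and positive predicates (for MP_431ff4_lc)

Closure properties of `REPred` and of the families `P : Set ℕ → α → Prop` such that `P B x` can be
enumerated from positive information about `B`, uniformly in `x` (`Pos`).
-/

namespace Pool.Agent.EDB

section

variable {α β : Type} [Primcodable α] [Primcodable β]

/-- Every recursively enumerable predicate is the projection of a computable one, and conversely. -/
theorem re_iff {p : α → Prop} :
    REPred p ↔ ∃ D : α × ℕ → Bool, Computable D ∧ ∀ a, p a ↔ ∃ n, D (a, n) = true := by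
  constructor
  · intro hp
    obtain ⟨c, hc⟩ := Nat.Partrec.Code.exists_code.1 hp
    refine ⟨fun q => (Nat.Partrec.Code.evaln q.2 c (Encodable.encode q.1)).isSome, ?_, ?_⟩
    · have h1 : Computable fun q : α × ℕ =>
          Nat.Partrec.Code.evaln q.2 c (Encodable.encode q.1) :=
        Nat.Partrec.Code.primrec_evaln.to_comp.comp
          ((Computable.snd.pair (Computable.const c)).pair
            (Computable.encode.comp Computable.fst))
      exact Primrec.option_isSome.to_comp.comp h1
    · intro a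
      have h2 : p a ↔ (Nat.Partrec.Code.eval c (Encodable.encode a)).Dom := by
        rw [hc]
        simp [Part.dom_iff_mem, Part.assert]
      rw [h2, Part.dom_iff_mem]
      constructor
      · rintro ⟨y, hy⟩
        obtain ⟨k, hk⟩ := Nat.Partrec.Code.evaln_complete.1 hy
        exact ⟨k, Option.isSome_iff_exists.2 ⟨y, hk⟩⟩
      · rintro ⟨k, hk⟩
        obtain ⟨y, hy⟩ := Option.isSome_iff_exists.1 hk
        exact ⟨y, Nat.Partrec.Code.evaln_sound hy⟩
  · rintro ⟨D, hD, h⟩
    have h1 : Partrec fun a => Nat.rfind fun n => (Part.some (D (a, n)) : Part Bool) :=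
      Partrec.rfind hD.partrec.to₂
    refine h1.dom_re.of_eq fun a => ?_
    rw [h, Nat.rfind_dom]
    simp

theorem re_comp {p : β → Prop} (hp : REPred p) {f : α → β} (hf : Computable f) :
    REPred fun a => p (f a) := by
  obtain ⟨D, hD, h⟩ := re_iff.1 hp
  refine re_iff.2 ⟨fun q => D (f q.1, q.2), hD.comp ((hf.comp Computable.fst).pair
    Computable.snd), fun a => h (f a)⟩

theorem re_bool {f : α → Bool} (hf : Computable f) : REPred fun a => f a = true :=
  re_iff.2 ⟨fun q => f q.1, hf.comp Computable.fst, fun a => by simp⟩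

theorem re_dec {p : α → Prop} (hp : PrimrecPred p) : REPred p :=
  hp.computablePred.to_re

theorem re_and {p q : α → Prop} (hp : REPred p) (hq : REPred q) :
    REPred fun a => p a ∧ q a := by
  obtain ⟨D, hD, h⟩ := re_iff.1 hp
  obtain ⟨E, hE, h'⟩ := re_iff.1 hq
  refine re_iff.2 ⟨fun r => D (r.1, (Nat.unpair r.2).1) && E (r.1, (Nat.unpair r.2).2), ?_, ?_⟩
  · exact Primrec.and.to_comp.comp
      (hD.comp (Computable.fst.pair (Computable.fst.comp
        (Computable.unpair.comp Computable.snd))))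
      (hE.comp (Computable.fst.pair (Computable.snd.comp
        (Computable.unpair.comp Computable.snd))))
  · intro a
    rw [h, h']
    constructor
    · rintro ⟨⟨n, hn⟩, ⟨m, hm⟩⟩
      exact ⟨Nat.pair n m, by simp [hn, hm]⟩
    · rintro ⟨n, hn⟩
      simp only [Bool.and_eq_true] at hn
      exact ⟨⟨_, hn.1⟩, ⟨_, hn.2⟩⟩

theorem re_or {p q : α → Prop} (hp : REPred p) (hq : REPred q) :
    REPred fun a => p a ∨ q a := by
  obtain ⟨D, hD, h⟩ := re_iff.1 hp
  obtain ⟨E, hE, h'⟩ := re_iff.1 hq
  refine re_iff.2 ⟨fun r => D r || E r, Primrec.or.to_comp.comp hD hE, ?_⟩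
  intro a
  rw [h, h']
  constructor
  · rintro (⟨n, hn⟩ | ⟨n, hn⟩)
    · exact ⟨n, by simp [hn]⟩
    · exact ⟨n, by simp [hn]⟩
  · rintro ⟨n, hn⟩
    simp only [Bool.or_eq_true] at hn
    exact hn.imp (fun h => ⟨n, h⟩) fun h => ⟨n, h⟩

/-- Existential quantifier over an arbitrary coded type. -/
theorem re_exists {p : α × β → Prop} (hp : REPred p) : REPred fun a => ∃ b, p (a, b) := by
  obtain ⟨D, hD, h⟩ := re_iff.1 hp
  refine re_iff.2 ⟨fun r => Option.casesOn (motive := fun _ => Bool)
    (Encodable.decode (α := β) (Nat.unpair r.2).1) false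
    fun b => D ((r.1, b), (Nat.unpair r.2).2), ?_, ?_⟩
  · refine Computable.option_casesOn ?_ (Computable.const false) ?_
    · exact Computable.decode.comp (Computable.fst.comp (Computable.unpair.comp Computable.snd))
    · exact hD.comp (((Computable.fst.comp Computable.fst).pair Computable.snd).pair
        (Computable.snd.comp (Computable.unpair.comp (Computable.snd.comp Computable.fst))))
  · intro a
    constructor
    · rintro ⟨b, hb⟩
      obtain ⟨m, hm⟩ := (h _).1 hb
      refine ⟨Nat.pair (Encodable.encode b) m, ?_⟩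
      simpa using hm
    · rintro ⟨n, hn⟩
      cases hd : Encodable.decode (α := β) (Nat.unpair n).1 with
      | none => simp [hd] at hn
      | some b =>
        refine ⟨b, (h _).2 ⟨(Nat.unpair n).2, ?_⟩⟩
        simpa [hd] using hn

/-- Bounded conjunction. -/
def ballB (b : α × ℕ → Bool) (a : α) (n : ℕ) : Bool :=
  Nat.rec true (fun i ih => ih && b (a, i)) n

omit [Primcodable α] in
theorem ballB_iff (b : α × ℕ → Bool) (a : α) (n : ℕ) :
    ballB b a n = true ↔ ∀ i < n, b (a, i) = true := by
  induction n with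
  | zero => simp [ballB]
  | succ n ih =>
    have h : ballB b a (n + 1) = (ballB b a n && b (a, n)) := rfl
    rw [h, Bool.and_eq_true, ih]
    constructor
    · rintro ⟨h1, h2⟩ i hi
      rcases Nat.lt_succ_iff_lt_or_eq.1 hi with hi | rfl
      · exact h1 i hi
      · exact h2
    · intro h1
      exact ⟨fun i hi => h1 i (Nat.lt_succ_of_lt hi), h1 n (Nat.lt_succ_self n)⟩

theorem ballB_computable {b : α × ℕ → Bool} (hb : Computable b) {n : α → ℕ}
    (hn : Computable n) : Computable fun a => ballB b a (n a) := by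
  have h : Computable₂ fun (a : α) (p : ℕ × Bool) => p.2 && b (a, p.1) :=
    Primrec.and.to_comp.comp (Computable.snd.comp Computable.snd)
      (hb.comp (Computable.fst.pair (Computable.fst.comp Computable.snd)))
  exact Computable.nat_rec hn (Computable.const true) h

/-- Bounded disjunction. -/
theorem bexB_computable {b : α × ℕ → Bool} (hb : Computable b) {n : α → ℕ}
    (hn : Computable n) : Computable fun a => !(ballB (fun q => !(b q)) a (n a)) :=
  Primrec.not.to_comp.comp (ballB_computable (Primrec.not.to_comp.comp hb) hn)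

omit [Primcodable α] in
theorem bexB_iff (b : α × ℕ → Bool) (a : α) (n : ℕ) :
    (!(ballB (fun q => !(b q)) a n)) = true ↔ ∃ i < n, b (a, i) = true := by
  have h := ballB_iff (fun q => !(b q)) a n
  rw [Bool.not_eq_true', ← Bool.not_eq_true, h]
  push Not
  refine exists_congr fun i => and_congr_right fun _ => ?_
  simp

/-- Bounded universal quantifier. -/
theorem re_ball {p : α × ℕ → Prop} (hp : REPred p) {n : α → ℕ} (hn : Computable n) :
    REPred fun a => ∀ i < n a, p (a, i) := by
  obtain ⟨D, hD, h⟩ := re_iff.1 hp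
  -- the witness is bounded
  have h1 : Computable fun q : ((α × ℕ) × ℕ) × ℕ => D ((q.1.1.1, q.1.2), q.2) := by
    refine hD.comp ?_
    exact (((Computable.fst.comp Computable.fst).comp Computable.fst).pair
      (Computable.snd.comp Computable.fst)).pair Computable.snd
  have h2 := bexB_computable h1
    (n := fun q : (α × ℕ) × ℕ => q.1.2) (Computable.snd.comp Computable.fst)
  have h3 := ballB_computable h2 (n := fun q : α × ℕ => n q.1) (hn.comp Computable.fst)
  refine re_iff.2 ⟨_, h3, fun a => ?_⟩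
  constructor
  · intro H
    have H' : ∀ i, ∃ w, i < n a → D ((a, i), w) = true := by
      intro i
      by_cases hi : i < n a
      · obtain ⟨w, hw⟩ := (h _).1 (H i hi)
        exact ⟨w, fun _ => hw⟩
      · exact ⟨0, fun h => absurd h hi⟩
    choose w hw using H'
    refine ⟨(Finset.range (n a)).sup w + 1, ?_⟩
    rw [ballB_iff]
    intro i hi
    rw [bexB_iff]
    exact ⟨w i, Nat.lt_succ_of_le (Finset.le_sup (Finset.mem_range.2 hi)), hw i hi⟩
  · rintro ⟨W, hW⟩ i hi
    rw [ballB_iff] at hW
    obtain ⟨w, -, hw⟩ := (bexB_iff _ _ _).1 (hW i hi)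
    exact (h _).2 ⟨w, hw⟩

/-- Universal quantifier over the entries of a list. -/
theorem re_ball_list {p : α × β → Prop} (hp : REPred p) {l : α → List β} (hl : Computable l) :
    REPred fun a => ∀ y ∈ l a, p (a, y) := by
  have h1 : REPred fun q : α × ℕ => ∃ y : β, (l q.1)[q.2]? = some y ∧ p (q.1, y) := by
    refine re_exists (p := fun r : (α × ℕ) × β => (l r.1.1)[r.1.2]? = some r.2 ∧ p (r.1.1, r.2))
      (re_and ?_ ?_)
    · have h2 : Computable fun r : (α × ℕ) × β =>
          Encodable.encode ((l r.1.1)[r.1.2]?) :=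
        Computable.encode.comp (Primrec.list_getElem?.to_comp.comp
          (hl.comp (Computable.fst.comp Computable.fst))
          (Computable.snd.comp Computable.fst))
      have h3 : Computable fun r : (α × ℕ) × β => Encodable.encode (some r.2 : Option β) :=
        Computable.encode.comp (Computable.option_some.comp Computable.snd)
      have h4 : Computable fun r : (α × ℕ) × β =>
          decide (Encodable.encode ((l r.1.1)[r.1.2]?) = Encodable.encode (some r.2)) :=
        (Primrec.eq (α := ℕ)).decide.to_comp.comp h2 h3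
      refine (re_bool h4).of_eq fun r => ?_
      rw [decide_eq_true_iff]
      exact Encodable.encode_inj
    · exact re_comp hp ((Computable.fst.comp Computable.fst).pair Computable.snd)
  refine (re_ball h1 (n := fun a => (l a).length)
    (Primrec.list_length.to_comp.comp hl)).of_eq fun a => ?_
  constructor
  · intro H y hy
    obtain ⟨i, hi, rfl⟩ := List.getElem_of_mem hy
    obtain ⟨y, h5, h6⟩ := H i hi
    rw [List.getElem?_eq_getElem hi, Option.some.injEq] at h5
    rwa [h5]
  · intro H i hi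
    exact ⟨(l a)[i], List.getElem?_eq_getElem hi, H _ (List.getElem_mem hi)⟩

theorem re_eq {f g : α → β} (hf : Computable f) (hg : Computable g) :
    REPred fun a => f a = g a := by
  have h4 : Computable fun a => decide (Encodable.encode (f a) = Encodable.encode (g a)) :=
    (Primrec.eq (α := ℕ)).decide.to_comp.comp (Computable.encode.comp hf)
      (Computable.encode.comp hg)
  refine (re_bool h4).of_eq fun r => ?_
  rw [decide_eq_true_iff]
  exact Encodable.encode_inj

theorem re_mem {f : α → β} {l : α → List β} (hf : Computable f) (hl : Computable l) :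
    REPred fun a => f a ∈ l a := by
  have h : REPred fun a => ∃ i : ℕ, (l a)[i]? = some (f a) :=
    re_exists (p := fun r : α × ℕ => (l r.1)[r.2]? = some (f r.1))
      (re_eq (Primrec.list_getElem?.to_comp.comp (hl.comp Computable.fst) Computable.snd)
        (Computable.option_some.comp (hf.comp Computable.fst)))
  exact h.of_eq fun a => List.mem_iff_getElem?.symm

theorem re_const (p : Prop) : REPred fun _ : α => p := by
  by_cases hp : p
  · exact (re_bool (Computable.const true)).of_eq fun a => by simp [hp]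
  · exact (re_bool (Computable.const false)).of_eq fun a => by simp [hp]

/-! ### Positive predicates -/

/-- `P B x` can be enumerated from an enumeration of `B`, uniformly in `x`. -/
def Pos (P : Set ℕ → α → Prop) : Prop :=
  ∃ R : α × List ℕ → Prop, REPred R ∧ ∀ B x, P B x ↔ ∃ l : List ℕ, (∀ y ∈ l, y ∈ B) ∧ R (x, l)

theorem Pos.of_eq {P Q : Set ℕ → α → Prop} (hP : Pos P) (h : ∀ B x, P B x ↔ Q B x) : Pos Q := by
  obtain ⟨R, hR, h'⟩ := hP
  exact ⟨R, hR, fun B x => by rw [← h, h']⟩

theorem pos_re {p : α → Prop} (hp : REPred p) : Pos fun _ x => p x :=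
  ⟨fun q => p q.1, re_comp hp Computable.fst, fun B x =>
    ⟨fun h => ⟨[], by simp, h⟩, fun ⟨_, _, h⟩ => h⟩⟩

theorem pos_mem {h : α → ℕ} (hh : Computable h) : Pos fun B x => h x ∈ B := by
  refine ⟨fun q => h q.1 ∈ q.2, re_mem (hh.comp Computable.fst) Computable.snd, fun B x => ?_⟩
  constructor
  · intro H
    exact ⟨[h x], by simpa using H, by simp⟩
  · rintro ⟨l, h1, h2⟩
    exact h1 _ h2

theorem pos_and {P Q : Set ℕ → α → Prop} (hP : Pos P) (hQ : Pos Q) :
    Pos fun B x => P B x ∧ Q B x := by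
  obtain ⟨R, hR, h⟩ := hP
  obtain ⟨S, hS, h'⟩ := hQ
  refine ⟨fun q => ∃ r : List ℕ × List ℕ, q.2 = r.1 ++ r.2 ∧ R (q.1, r.1) ∧ S (q.1, r.2),
    re_exists (p := fun q : (α × List ℕ) × (List ℕ × List ℕ) =>
      q.1.2 = q.2.1 ++ q.2.2 ∧ R (q.1.1, q.2.1) ∧ S (q.1.1, q.2.2)) ?_, fun B x => ?_⟩
  · refine re_and (re_eq (Computable.snd.comp Computable.fst) ?_) (re_and ?_ ?_)
    · exact Primrec.list_append.to_comp.comp (Computable.fst.comp Computable.snd)
        (Computable.snd.comp Computable.snd)
    · exact re_comp hR ((Computable.fst.comp Computable.fst).pair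
        (Computable.fst.comp Computable.snd))
    · exact re_comp hS ((Computable.fst.comp Computable.fst).pair
        (Computable.snd.comp Computable.snd))
  · show (P B x ∧ Q B x) ↔ _
    rw [h, h']
    constructor
    · rintro ⟨⟨l, h1, h2⟩, ⟨m, h3, h4⟩⟩
      refine ⟨l ++ m, ?_, (l, m), rfl, h2, h4⟩
      intro y hy
      rcases List.mem_append.1 hy with hy | hy
      · exact h1 y hy
      · exact h3 y hy
    · rintro ⟨l, h1, ⟨⟨a, b⟩, h2, h3, h4⟩⟩
      dsimp only at h2 h3 h4
      subst h2
      exact ⟨⟨a, fun y hy => h1 y (List.mem_append_left _ hy), h3⟩,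
        ⟨b, fun y hy => h1 y (List.mem_append_right _ hy), h4⟩⟩

theorem pos_or {P Q : Set ℕ → α → Prop} (hP : Pos P) (hQ : Pos Q) :
    Pos fun B x => P B x ∨ Q B x := by
  obtain ⟨R, hR, h⟩ := hP
  obtain ⟨S, hS, h'⟩ := hQ
  refine ⟨fun q => R q ∨ S q, re_or hR hS, fun B x => ?_⟩
  show (P B x ∨ Q B x) ↔ _
  rw [h, h']
  constructor
  · rintro (⟨l, h1, h2⟩ | ⟨l, h1, h2⟩)
    · exact ⟨l, h1, Or.inl h2⟩
    · exact ⟨l, h1, Or.inr h2⟩
  · rintro ⟨l, h1, h2 | h2⟩
    · exact Or.inl ⟨l, h1, h2⟩
    · exact Or.inr ⟨l, h1, h2⟩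

theorem pos_ex {P : Set ℕ → α × β → Prop} (hP : Pos P) : Pos fun B x => ∃ b, P B (x, b) := by
  obtain ⟨R, hR, h⟩ := hP
  refine ⟨fun q => ∃ b : β, R ((q.1, b), q.2),
    re_exists (p := fun q : (α × List ℕ) × β => R ((q.1.1, q.2), q.1.2)) ?_, fun B x => ?_⟩
  · exact re_comp hR (((Computable.fst.comp Computable.fst).pair Computable.snd).pair
      (Computable.snd.comp Computable.fst))
  · constructor
    · rintro ⟨b, hb⟩
      obtain ⟨l, h1, h2⟩ := (h _ _).1 hb
      exact ⟨l, h1, b, h2⟩
    · rintro ⟨l, h1, b, h2⟩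
      exact ⟨b, (h _ _).2 ⟨l, h1, h2⟩⟩

theorem pos_comp {P : Set ℕ → β → Prop} (hP : Pos P) {f : α → β} (hf : Computable f) :
    Pos fun B x => P B (f x) := by
  obtain ⟨R, hR, h⟩ := hP
  exact ⟨fun q => R (f q.1, q.2), re_comp hR ((hf.comp Computable.fst).pair Computable.snd),
    fun B x => h B (f x)⟩

theorem pos_ball_list {P : Set ℕ → α × β → Prop} (hP : Pos P) {l : α → List β}
    (hl : Computable l) : Pos fun B x => ∀ y ∈ l x, P B (x, y) := by
  obtain ⟨R, hR, h⟩ := hP
  refine ⟨fun q => ∀ y ∈ l q.1, ∃ m : List ℕ, (∀ z ∈ m, z ∈ q.2) ∧ R ((q.1, y), m),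
    re_ball_list (p := fun r : (α × List ℕ) × β =>
      ∃ m : List ℕ, (∀ z ∈ m, z ∈ r.1.2) ∧ R ((r.1.1, r.2), m)) ?_ (hl.comp Computable.fst),
    fun B x => ?_⟩
  · refine re_exists (p := fun r : ((α × List ℕ) × β) × List ℕ =>
      (∀ z ∈ r.2, z ∈ r.1.1.2) ∧ R ((r.1.1.1, r.1.2), r.2)) (re_and ?_ ?_)
    · refine re_ball_list (p := fun s : (((α × List ℕ) × β) × List ℕ) × ℕ => s.2 ∈ s.1.1.1.2)
        (re_mem Computable.snd ?_) Computable.snd
      exact Computable.snd.comp (Computable.fst.comp (Computable.fst.comp Computable.fst))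
    · exact re_comp hR (((Computable.fst.comp (Computable.fst.comp Computable.fst)).pair
        (Computable.snd.comp Computable.fst)).pair Computable.snd)
  · constructor
    · intro H
      have H' : ∀ y, ∃ m : List ℕ, y ∈ l x → (∀ z ∈ m, z ∈ B) ∧ R ((x, y), m) := by
        intro y
        by_cases hy : y ∈ l x
        · obtain ⟨m, h1, h2⟩ := (h _ _).1 (H y hy)
          exact ⟨m, fun _ => ⟨h1, h2⟩⟩
        · exact ⟨[], fun h => absurd h hy⟩
      choose m hm using H'
      refine ⟨(l x).flatMap m, ?_, fun y hy => ⟨m y, ?_, (hm y hy).2⟩⟩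
      · intro z hz
        obtain ⟨y, hy, hz⟩ := List.mem_flatMap.1 hz
        exact (hm y hy).1 z hz
      · intro z hz
        exact List.mem_flatMap.2 ⟨y, hy, hz⟩
    · rintro ⟨L, h1, h2⟩ y hy
      obtain ⟨m, h3, h4⟩ := h2 y hy
      exact (h _ _).2 ⟨m, fun z hz => h1 z (h3 z hz), h4⟩

/-- An enumeration operator. -/
def EOp (Θ : Set ℕ → Set ℕ) : Prop := Pos fun B (x : ℕ) => x ∈ Θ B

/-- Substitution of an enumeration operator. -/
theorem pos_subst {P : Set ℕ → α → Prop} (hP : Pos P) {Θ : Set ℕ → Set ℕ} (hΘ : EOp Θ) :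
    Pos fun B x => P (Θ B) x := by
  obtain ⟨R, hR, h⟩ := hP
  have h1 : Pos fun B (q : α × List ℕ) => (∀ y ∈ q.2, y ∈ Θ B) ∧ R q := by
    refine pos_and ?_ (pos_re hR)
    exact pos_ball_list (P := fun B (r : (α × List ℕ) × ℕ) => r.2 ∈ Θ B)
      (pos_comp hΘ Computable.snd) Computable.snd
  exact (pos_ex (P := fun B (q : α × List ℕ) => (∀ y ∈ q.2, y ∈ Θ B) ∧ R q) h1).of_eq
    fun B x => (h (Θ B) x).symm

theorem EOp.comp {Θ Φ : Set ℕ → Set ℕ} (hΘ : EOp Θ) (hΦ : EOp Φ) : EOp fun B => Θ (Φ B) :=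
  pos_subst hΘ hΦ

theorem eop_id : EOp fun B => B := pos_mem Computable.id

/-- Positive predicates are monotone. -/
theorem Pos.mono {P : Set ℕ → α → Prop} (hP : Pos P) {B C : Set ℕ} (h : B ⊆ C) {x : α}
    (hx : P B x) : P C x := by
  obtain ⟨R, -, h'⟩ := hP
  obtain ⟨l, h1, h2⟩ := (h' _ _).1 hx
  exact (h' _ _).2 ⟨l, fun y hy => h (h1 y hy), h2⟩

/-- Positive predicates use finitely many elements. -/
theorem Pos.compact {P : Set ℕ → α → Prop} (hP : Pos P) {B : Set ℕ} {x : α} (hx : P B x) :
    ∃ l : List ℕ, (∀ y ∈ l, y ∈ B) ∧ P {y | y ∈ l} x := by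
  obtain ⟨R, -, h'⟩ := hP
  obtain ⟨l, h1, h2⟩ := (h' _ _).1 hx
  exact ⟨l, h1, (h' _ _).2 ⟨l, fun y hy => hy, h2⟩⟩

end

end Pool.Agent.EDB
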