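import Pool.Agent.EDB.Elim

/-!
# The main step: an automorphism with a Borel presentation is increasing on the total degrees
(for MP_431ff4_lc)
-/

namespace Pool.Agent.EDB

open Topology Filter

/-! ### Measurability -/

section

variable {X : Type*} [MeasurableSpace X]

theorem meas_iff {G : X → Set ℕ} : Measurable G ↔ ∀ n, MeasurableSet {x | n ∈ G x} := by
  rw [measurable_set_iff]
  refine forall_congr' fun n => ?_
  exact measurableSet_setOfPred.symm

theorem meas_op (c : Nat.Partrec.Code) {G : X → Set ℕ} (hG : Measurable G) :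
    Measurable fun x => op c (G x) := by
  rw [meas_iff] at hG ⊢
  intro n
  have h1 : {x | n ∈ op c (G x)} = ⋃ D : Finset ℕ,
      (⋂ i ∈ D, {x | i ∈ G x}) ∩ {_x | (c.eval (Nat.pair n (code D))).Dom} := by
    ext x
    simp only [Set.mem_iUnion, Set.mem_inter_iff, Set.mem_iInter]
    rfl
  rw [h1]
  refine MeasurableSet.iUnion fun D => MeasurableSet.inter ?_ (MeasurableSet.const _)
  exact Finset.measurableSet_biInter D fun i _ => hG i

theorem meas_join {G K : X → Set ℕ} (hG : Measurable G) (hK : Measurable K) :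
    Measurable fun x => join (G x) (K x) := by
  rw [meas_iff] at hG hK ⊢
  intro n
  exact ((MeasurableSet.const (n % 2 = 0)).inter (hG (n / 2))).union
    ((MeasurableSet.const (n % 2 = 1)).inter (hK (n / 2)))

theorem meas_eq {G K : X → Set ℕ} (hG : Measurable G) (hK : Measurable K) :
    MeasurableSet {x | G x = K x} := by
  rw [meas_iff] at hG hK
  have h1 : {x | G x = K x} = ⋂ n : ℕ,
      (({x | n ∈ G x} ∩ {x | n ∈ K x}) ∪ ({x | n ∈ G x}ᶜ ∩ {x | n ∈ K x}ᶜ)) := by
    ext x
    rw [Set.mem_iInter]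
    constructor
    · intro h n
      have h' : G x = K x := h
      by_cases hn : n ∈ G x
      · exact Or.inl ⟨hn, by show n ∈ K x; rwa [← h']⟩
      · exact Or.inr ⟨hn, by show ¬ n ∈ K x; rwa [← h']⟩
    · intro h
      refine Set.ext fun n => ?_
      rcases h n with ⟨h1, h2⟩ | ⟨h1, h2⟩
      · exact iff_of_true h1 h2
      · exact iff_of_false h1 h2
  rw [h1]
  exact MeasurableSet.iInter fun n => ((hG n).inter (hK n)).union
    ((hG n).compl.inter (hK n).compl)

theorem meas_gr {α : Type} [Primcodable α] [MeasurableSpace α] [DiscreteMeasurableSpace α]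
    {u : X → ℕ → α} (hu : ∀ n, Measurable fun x => u x n) : Measurable fun x => gr (u x) := by
  rw [meas_iff]
  intro m
  exact hu m.unpair.1 (MeasurableSet.of_discrete (s := {v | Encodable.encode v = m.unpair.2}))

end

/-! ### Permutations -/

/-- Composition with a permutation on the right. -/
def preH (e : Equiv.Perm ℕ) : (ℕ → Bool) ≃ₜ (ℕ → Bool) where
  toFun A := A ∘ e
  invFun A := A ∘ e.symm
  left_inv A := by funext k; simp
  right_inv A := by funext k; simp
  continuous_toFun := continuous_pi fun k => continuous_apply (e k)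
  continuous_invFun := continuous_pi fun k => continuous_apply (e.symm k)

/-- Composition with a permutation on the left. -/
def postH (e : Equiv.Perm ℕ) : (ℕ → ℕ) ≃ₜ (ℕ → ℕ) where
  toFun f := e ∘ f
  invFun f := e.symm ∘ f
  left_inv f := by funext k; simp
  right_inv f := by funext k; simp
  continuous_toFun := continuous_pi fun k =>
    (continuous_of_discreteTopology (f := fun n : ℕ => e n)).comp (continuous_apply k)
  continuous_invFun := continuous_pi fun k =>
    (continuous_of_discreteTopology (f := fun n : ℕ => e.symm n)).comp (continuous_apply k)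

/-- A permutation which fixes all `j < M`, `j ≠ p` and has one cycle on the other numbers, with
`p ↦ M ↦ M + 2 ↦ M + 4 ↦ …`. -/
def sh (M p : ℕ) (hp : p < M) : Equiv.Perm ℕ where
  toFun j := if j = p then M else if j < M then j else if (j - M) % 2 = 0 then j + 2 else
    if j = M + 1 then p else j - 2
  invFun j := if j = p then M + 1 else if j < M then j else if (j - M) % 2 = 1 then j + 2 else
    if j = M then p else j - 2
  left_inv j := by
    dsimp only
    split_ifs <;> omega
  right_inv j := by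
    dsimp only
    split_ifs <;> omega

theorem sh_apply (M p : ℕ) (hp : p < M) (j : ℕ) : sh M p hp j = if j = p then M else
    if j < M then j else if (j - M) % 2 = 0 then j + 2 else if j = M + 1 then p else j - 2 := rfl

theorem sh_fix {M p : ℕ} (hp : p < M) {j : ℕ} (hj : j < M) (hjp : j ≠ p) :
    sh M p hp j = j := by
  rw [sh_apply, if_neg hjp, if_pos hj]

theorem sh_pow_fix {M p : ℕ} (hp : p < M) {j : ℕ} (hj : j < M) (hjp : j ≠ p) (k : ℕ) :
    (sh M p hp ^ k) j = j := by
  induction k with
  | zero => rfl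
  | succ k ih => rw [pow_succ', Equiv.Perm.mul_apply, ih, sh_fix hp hj hjp]

theorem sh_pow {M p : ℕ} (hp : p < M) (k : ℕ) : (sh M p hp ^ (k + 1)) p = M + 2 * k := by
  induction k with
  | zero => simp [sh_apply]
  | succ k ih =>
    rw [pow_succ', Equiv.Perm.mul_apply, ih, sh_apply]
    rw [if_neg (by omega), if_neg (by omega), if_pos (by omega)]
    ring

theorem sh_computable (M p : ℕ) (hp : p < M) : Computable (sh M p hp) := by
  have h1 : Primrec fun j : ℕ => if j = p then M else if j < M then j else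
      if (j - M) % 2 = 0 then j + 2 else if j = M + 1 then p else j - 2 := by
    refine Primrec.ite (Primrec.eq.comp Primrec.id (Primrec.const p)) (Primrec.const M) ?_
    refine Primrec.ite (Primrec.nat_lt.comp Primrec.id (Primrec.const M)) Primrec.id ?_
    refine Primrec.ite (Primrec.eq.comp (Primrec.nat_mod.comp (Primrec.nat_sub.comp Primrec.id
      (Primrec.const M)) (Primrec.const 2)) (Primrec.const 0))
      (Primrec.nat_add.comp Primrec.id (Primrec.const 2)) ?_
    exact Primrec.ite (Primrec.eq.comp Primrec.id (Primrec.const (M + 1))) (Primrec.const p)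
      (Primrec.nat_sub.comp Primrec.id (Primrec.const 2))
  exact h1.to_comp

/-! ### The box -/

theorem res_surj : ∀ᶠ f in residual (ℕ → ℕ), Function.Surjective f := by
  have h1 : ∀ n : ℕ, ∀ᶠ f in residual (ℕ → ℕ), ∃ k, f k = n := by
    intro n
    refine residual_of_dense_open (s := {f : ℕ → ℕ | ∃ k, f k = n}) ?_ ?_
    · have h2 : {f : ℕ → ℕ | ∃ k, f k = n} = ⋃ k : ℕ, (fun f : ℕ → ℕ => f k) ⁻¹' {n} := by
        ext f
        simp
      rw [h2]
      exact isOpen_iUnion fun k => (isOpen_discrete {n}).preimage (continuous_apply k)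
    · rw [dense_iff_inter_open]
      rintro U hU ⟨f, hf⟩
      obtain ⟨N, hN⟩ := exists_cyl hU hf
      refine ⟨Function.update f N n, hN N le_rfl ?_, N, by rw [Function.update_self]⟩
      intro i hi
      rw [Function.update_of_ne hi.ne]
  filter_upwards [eventually_countable_forall.2 h1] with f hf
  exact hf

theorem res_snd {X Y : Type*} [TopologicalSpace X] [TopologicalSpace Y] {P : Y → Prop}
    (hP : ∀ᶠ y in residual Y, P y) : ∀ᶠ z in residual (X × Y), P z.2 :=
  (tendsto_residual_of_isOpenMap continuous_snd isOpenMap_snd).eventually hP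

theorem res_fst {X Y : Type*} [TopologicalSpace X] [TopologicalSpace Y] {P : X → Prop}
    (hP : ∀ᶠ x in residual X, P x) : ∀ᶠ z in residual (X × Y), P z.1 :=
  (tendsto_residual_of_isOpenMap continuous_fst isOpenMap_fst).eventually hP

theorem box {F : Set ℕ → Set ℕ} (hF : Measurable F)
    (h1 : ∀ (A : ℕ → Bool) (f : ℕ → ℕ), ERed (F (gr (A ∘ f))) (join (F (gr A)) (F (gr f))))
    (h2 : ∀ (A : ℕ → Bool) (f : ℕ → ℕ), Function.Surjective f →
      ERed (F (gr A)) (join (F (gr (A ∘ f))) (F (gr f)))) :
    ∃ c c' : Nat.Partrec.Code, ∃ σ : ℕ → Bool, ∃ τ : ℕ → ℕ, ∃ N : ℕ,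
      ∀ᶠ z in residual ((ℕ → Bool) × (ℕ → ℕ)), z.1 ∈ cyl σ N → z.2 ∈ cyl τ N →
        F (gr (z.1 ∘ z.2)) = op c (join (F (gr z.1)) (F (gr z.2))) ∧
        F (gr z.1) = op c' (join (F (gr (z.1 ∘ z.2))) (F (gr z.2))) := by
  have m1 : Measurable fun z : (ℕ → Bool) × (ℕ → ℕ) => F (gr z.1) :=
    hF.comp (meas_gr fun n => (measurable_pi_apply n).comp measurable_fst)
  have m2 : Measurable fun z : (ℕ → Bool) × (ℕ → ℕ) => F (gr z.2) :=
    hF.comp (meas_gr fun n => (measurable_pi_apply n).comp measurable_snd)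
  have m3 : Measurable fun z : (ℕ → Bool) × (ℕ → ℕ) => F (gr (z.1 ∘ z.2)) := by
    refine hF.comp (meas_gr fun n => ?_)
    have h3 : Measurable fun q : (ℕ → Bool) × ℕ => q.1 q.2 :=
      measurable_from_prod_countable_left fun m => measurable_pi_apply m
    exact h3.comp (measurable_fst.prodMk ((measurable_pi_apply n).comp measurable_snd))
  obtain ⟨⟨c, c'⟩, U, hU, ⟨z₀, hz₀⟩, hS⟩ := exists_box
    (X := (ℕ → Bool) × (ℕ → ℕ)) (ι := Nat.Partrec.Code × Nat.Partrec.Code)
    (S := fun i => {z | F (gr (z.1 ∘ z.2)) = op i.1 (join (F (gr z.1)) (F (gr z.2)))} ∩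
      {z | F (gr z.1) = op i.2 (join (F (gr (z.1 ∘ z.2))) (F (gr z.2)))})
    (fun i => ((meas_eq m3 (meas_op i.1 (meas_join m1 m2))).inter
      (meas_eq m1 (meas_op i.2 (meas_join m3 m2)))).baireMeasurableSet)
    (by
      filter_upwards [res_snd (X := ℕ → Bool) res_surj] with z hz
      obtain ⟨c, hc⟩ := ered_iff_op.1 (h1 z.1 z.2)
      obtain ⟨c', hc'⟩ := ered_iff_op.1 (h2 z.1 z.2 hz)
      exact ⟨(c, c'), hc, hc'⟩)
  obtain ⟨N, hN⟩ := exists_cyl_prod hU hz₀
  refine ⟨c, c', z₀.1, z₀.2, N, ?_⟩
  filter_upwards [hS] with z hz hz1 hz2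
  exact hz (hN z.1 z.2 hz1 hz2)

/-! ### Nonconstancy -/

theorem gr_injective {α : Type} [Primcodable α] : Function.Injective (gr (α := α)) := by
  intro x y h
  funext i
  have h1 : Nat.pair i (Encodable.encode (x i)) ∈ gr x := mem_gr.2 rfl
  rw [h, mem_gr, Encodable.encode_inj] at h1
  exact h1.symm

theorem countable_below (C : Set ℕ) : {x : ℕ → Bool | ERed (gr x) C}.Countable := by
  have h1 : {x : ℕ → Bool | ERed (gr x) C} = gr ⁻¹' (Set.range fun c => op c C) := by
    ext x
    constructor
    · intro h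
      obtain ⟨c, hc⟩ := ered_iff_op.1 h
      exact ⟨c, hc.symm⟩
    · rintro ⟨c, hc⟩
      exact ered_iff_op.2 ⟨c, hc.symm⟩
  rw [h1]
  exact (Set.countable_range _).preimage gr_injective

end Pool.Agent.EDB
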