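import Pool.Agent.EDB.Core

/-!
# An automorphism with a Borel presentation is increasing on the total degrees (for MP_431ff4_lc)
-/

namespace Pool.Agent.EDB

open Topology Filter

theorem freq_of_res {X : Type*} [TopologicalSpace X] [BaireSpace X] {P : X → Prop} {U : Set X}
    (hU : IsOpen U) (hne : U.Nonempty) (h : ∀ᶠ g in residual X, g ∈ U → P g) :
    ∃ᶠ g in residual X, P g := by
  intro hcon
  obtain ⟨x, hx, h1, h2⟩ := exists_of_res (h.and hcon) hU hne
  exact h2 (h1 hx)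

/-- Reductions between joins are transported by an automorphism. -/
theorem up (π : EDeg ≃o EDeg) {P Q R P' Q' R' : Set ℕ} (h : ERed P (join Q R))
    (hP : π (deg P) = deg P') (hQ : π (deg Q) = deg Q') (hR : π (deg R) = deg R') :
    ERed P' (join Q' R') := by
  rw [← deg_le, ← hP, ← map_join π hQ hR]
  exact π.monotone (deg_le.2 h)

/-! ### Splitting a sequence -/

/-- A sequence from the part at the places `M, M + 2, M + 4, …` and the rest. -/
def spl (M : ℕ) : ((ℕ → Bool) × (ℕ → Bool)) ≃ₜ (ℕ → Bool) where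
  toFun w := fun i => if i < M then w.2 i else
    if (i - M) % 2 = 0 then w.1 ((i - M) / 2) else w.2 (M + (i - M) / 2)
  invFun A := (fun k => A (M + 2 * k), fun i => if i < M then A i else A (M + 2 * (i - M) + 1))
  left_inv w := by
    refine Prod.ext (funext fun k => ?_) (funext fun i => ?_)
    · have h1 : (M + 2 * k - M) / 2 = k := by omega
      dsimp only
      rw [if_neg (by omega), if_pos (by omega), h1]
    · dsimp only
      by_cases h : i < M
      · simp only [h, if_true]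
      · have h1 : M + (M + 2 * (i - M) + 1 - M) / 2 = i := by omega
        rw [if_neg h, if_neg (by omega), if_neg (by omega), h1]
  right_inv A := by
    funext i
    dsimp only
    by_cases h : i < M
    · simp only [h, if_true]
    · rw [if_neg h]
      by_cases h2 : (i - M) % 2 = 0
      · have h3 : M + 2 * ((i - M) / 2) = i := by omega
        rw [if_pos h2, h3]
      · have h3 : M + 2 * (M + (i - M) / 2 - M) + 1 = i := by omega
        rw [if_neg h2, if_neg (by omega), h3]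
  continuous_toFun := by
    refine continuous_pi fun i => ?_
    by_cases h : i < M
    · simp only [h, if_true]
      exact (continuous_apply i).comp continuous_snd
    · simp only [h, if_false]
      by_cases h2 : (i - M) % 2 = 0
      · simp only [h2, if_true]
        exact (continuous_apply _).comp continuous_fst
      · simp only [h2, if_false]
        exact (continuous_apply _).comp continuous_snd
  continuous_invFun := by
    refine Continuous.prodMk (continuous_pi fun k => continuous_apply _) (continuous_pi fun i => ?_)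
    by_cases h : i < M
    · simp only [h, if_true]
      exact continuous_apply i
    · simp only [h, if_false]
      exact continuous_apply _

theorem spl_apply (M : ℕ) (w : (ℕ → Bool) × (ℕ → Bool)) (i : ℕ) : spl M w i =
    if i < M then w.2 i else if (i - M) % 2 = 0 then w.1 ((i - M) / 2) else
      w.2 (M + (i - M) / 2) := rfl

theorem spl_even (M : ℕ) (w : (ℕ → Bool) × (ℕ → Bool)) (k : ℕ) :
    spl M w (M + 2 * k) = w.1 k := by
  have h1 : (M + 2 * k - M) / 2 = k := by omega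
  rw [spl_apply, if_neg (by omega), if_pos (by omega), h1]

theorem re_lt_const (M : ℕ) : REPred fun m : ℕ => m.unpair.1 < M :=
  re_dec (Primrec.nat_lt.comp (Primrec.fst.comp Primrec.unpair) (Primrec.const M))

theorem re_le_const (M : ℕ) : REPred fun m : ℕ => M ≤ m.unpair.1 :=
  re_dec (Primrec.nat_le.comp (Primrec.const M) (Primrec.fst.comp Primrec.unpair))

theorem comp_half (M : ℕ) : Computable fun m : ℕ => (m.unpair.1 - M) / 2 :=
  comp_div2.comp (Primrec.nat_sub.comp (Primrec.fst.comp Primrec.unpair)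
    (Primrec.const M)).to_comp

theorem re_par (M r : ℕ) : REPred fun m : ℕ => (m.unpair.1 - M) % 2 = r :=
  re_eq (comp_mod2.comp (Primrec.nat_sub.comp (Primrec.fst.comp Primrec.unpair)
    (Primrec.const M)).to_comp) (Computable.const r)

theorem gr_spl_ered (M : ℕ) (B C : ℕ → Bool) :
    ERed (gr (spl M (B, C))) (join (gr B) (gr C)) := by
  have h : EOp fun J => {m | (m.unpair.1 < M ∧ 2 * Nat.pair m.unpair.1 m.unpair.2 + 1 ∈ J) ∨
      (M ≤ m.unpair.1 ∧ (((m.unpair.1 - M) % 2 = 0 ∧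
        2 * Nat.pair ((m.unpair.1 - M) / 2) m.unpair.2 ∈ J) ∨
      ((m.unpair.1 - M) % 2 = 1 ∧
        2 * Nat.pair (M + (m.unpair.1 - M) / 2) m.unpair.2 + 1 ∈ J)))} := by
    refine pos_or (pos_and (pos_re (re_lt_const M)) (pos_mem (comp_two_mul_add.comp
      (comp_pair (comp_un1 Computable.id) (comp_un2 Computable.id)))))
      (pos_and (pos_re (re_le_const M)) (pos_or (pos_and (pos_re (re_par M 0)) (pos_mem
      (comp_two_mul.comp (comp_pair (comp_half M) (comp_un2 Computable.id)))))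
      (pos_and (pos_re (re_par M 1)) (pos_mem (comp_two_mul_add.comp (comp_pair ?_
        (comp_un2 Computable.id)))))))
    exact (Primrec.nat_add.comp (Primrec.const M) Primrec.id).to_comp.comp (comp_half M)
  refine ered_iff.2 ⟨_, h, Set.ext fun m => ?_⟩
  show Encodable.encode (spl M (B, C) m.unpair.1) = m.unpair.2 ↔
    (m.unpair.1 < M ∧ 2 * Nat.pair m.unpair.1 m.unpair.2 + 1 ∈ join (gr B) (gr C)) ∨
      (M ≤ m.unpair.1 ∧ (((m.unpair.1 - M) % 2 = 0 ∧
        2 * Nat.pair ((m.unpair.1 - M) / 2) m.unpair.2 ∈ join (gr B) (gr C)) ∨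
      ((m.unpair.1 - M) % 2 = 1 ∧
        2 * Nat.pair (M + (m.unpair.1 - M) / 2) m.unpair.2 + 1 ∈ join (gr B) (gr C))))
  simp only [two_mul_mem_join, two_mul_add_mem_join, mem_gr, spl_apply]
  generalize m.unpair.1 = i
  generalize m.unpair.2 = v
  by_cases h1 : i < M
  · rw [if_pos h1]
    constructor
    · intro h
      exact Or.inl ⟨h1, h⟩
    · rintro (⟨-, h⟩ | ⟨h2, -⟩)
      · exact h
      · omega
  · rw [if_neg h1]
    by_cases h2 : (i - M) % 2 = 0
    · rw [if_pos h2]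
      constructor
      · intro h
        exact Or.inr ⟨not_lt.1 h1, Or.inl ⟨h2, h⟩⟩
      · rintro (⟨h3, -⟩ | ⟨-, ⟨-, h⟩ | ⟨h3, -⟩⟩)
        · exact absurd h3 h1
        · exact h
        · omega
    · rw [if_neg h2]
      constructor
      · intro h
        exact Or.inr ⟨not_lt.1 h1, Or.inr ⟨by omega, h⟩⟩
      · rintro (⟨h3, -⟩ | ⟨-, ⟨h3, -⟩ | ⟨-, h⟩⟩)
        · exact absurd h3 h1
        · exact absurd h3 h2
        · exact h

/-! ### One operator for all shifts -/

/-- The operator `J = Y ⊕ (q ⊕ r) ↦ Θ' (Θ (Y ⊕ q) ⊕ r)`. -/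
def twice (c c' : Nat.Partrec.Code) (J : Set ℕ) : Set ℕ :=
  op c' (join (op c (join {n | 2 * n ∈ J} {n | 2 * (2 * n) + 1 ∈ J}))
    {n | 2 * (2 * n + 1) + 1 ∈ J})

theorem eop_twice (c c' : Nat.Partrec.Code) : EOp (twice c c') := by
  have h1 : EOp fun J => {n | 2 * (2 * n) + 1 ∈ J} :=
    pos_mem (comp_two_mul_add.comp comp_two_mul)
  have h2 : EOp fun J => {n | 2 * (2 * n + 1) + 1 ∈ J} :=
    pos_mem (comp_two_mul_add.comp comp_two_mul_add)
  have h3 : EOp fun J => op c (join {n | 2 * n ∈ J} {n | 2 * (2 * n) + 1 ∈ J}) :=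
    EOp.comp (eop_op c) (eop_join eop_left h1)
  have h4 : EOp fun J => op c' (join (op c (join {n | 2 * n ∈ J} {n | 2 * (2 * n) + 1 ∈ J}))
    {n | 2 * (2 * n + 1) + 1 ∈ J}) := EOp.comp (eop_op c') (eop_join h3 h2)
  exact h4

theorem twice_join (c c' : Nat.Partrec.Code) (Y q r : Set ℕ) :
    twice c c' (join Y (join q r)) = op c' (join (op c (join Y q)) r) := by
  unfold twice
  congr 2
  · congr 2
    · exact Set.ext fun n => two_mul_mem_join
    · exact Set.ext fun n => two_mul_add_mem_join.trans two_mul_mem_join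
  · exact Set.ext fun n => two_mul_add_mem_join.trans two_mul_add_mem_join

/-- From the box and the bit to a reduction with generic parameters. -/
theorem shift_step (π : EDeg ≃o EDeg) {F : Set ℕ → Set ℕ}
    (hB : ∀ x : ℕ → Bool, π (deg (gr x)) = deg (F (gr x)))
    (hN : ∀ f : ℕ → ℕ, π (deg (gr f)) = deg (F (gr f)))
    {c c' : Nat.Partrec.Code} {σ δ : ℕ → Bool} {τ : ℕ → ℕ} {N M n p : ℕ} {b : Bool}
    (hbox : ∀ᶠ z in residual ((ℕ → Bool) × (ℕ → ℕ)), z.1 ∈ cyl σ N → z.2 ∈ cyl τ N →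
        F (gr (z.1 ∘ z.2)) = op c (join (F (gr z.1)) (F (gr z.2))) ∧
        F (gr z.1) = op c' (join (F (gr (z.1 ∘ z.2))) (F (gr z.2))))
    (hNp : N ≤ p) (hτ : ∀ i < N, τ i < p) (hpM : p < M) (hδσ : ∀ i < N, δ i = σ i)
    (hbit : ∀ᶠ A in residual (ℕ → Bool),
      (∀ i < M, i ≠ p → A i = δ i) → (n ∈ F (gr A) ↔ A p = b)) :
    ∀ᶠ z in residual ((ℕ → Bool) × (ℕ → ℕ)), (∀ i < M, i ≠ p → z.1 i = δ i) →
      z.2 ∈ cyl τ N →
        deg (lev (fun k => z.1 (M + 2 * k)) b) ≤ π (deg (join (gr z.1) (gr z.2))) := by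
  let e : Equiv.Perm ℕ := sh M p hpM
  have ha : ∀ k : ℕ, ∀ᶠ z in residual ((ℕ → Bool) × (ℕ → ℕ)),
      z.1 ∘ ⇑(e ^ k) ∈ cyl σ N → e ∘ z.2 ∈ cyl τ N →
        F (gr ((z.1 ∘ ⇑(e ^ k)) ∘ (e ∘ z.2))) =
          op c (join (F (gr (z.1 ∘ ⇑(e ^ k)))) (F (gr (e ∘ z.2)))) := by
    intro k
    filter_upwards [res_homeo ((preH (e ^ k)).prodCongr (postH e)) hbox] with z hz h1 h2
    exact (hz h1 h2).1
  have hb : ∀ k : ℕ, ∀ᶠ z in residual ((ℕ → Bool) × (ℕ → ℕ)),
      z.1 ∘ ⇑(e ^ k) ∈ cyl σ N → z.2 ∈ cyl τ N →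
        F (gr (z.1 ∘ ⇑(e ^ k))) =
          op c' (join (F (gr ((z.1 ∘ ⇑(e ^ k)) ∘ z.2))) (F (gr z.2))) := by
    intro k
    filter_upwards [res_homeo ((preH (e ^ k)).prodCongr (Homeomorph.refl (ℕ → ℕ))) hbox]
      with z hz h1 h2
    exact (hz h1 h2).2
  have hc : ∀ k : ℕ, ∀ᶠ z in residual ((ℕ → Bool) × (ℕ → ℕ)),
      (∀ i < M, i ≠ p → (z.1 ∘ ⇑(e ^ k)) i = δ i) →
        (n ∈ F (gr (z.1 ∘ ⇑(e ^ k))) ↔ (z.1 ∘ ⇑(e ^ k)) p = b) := by
    intro k
    exact res_fst (res_homeo (preH (e ^ k)) hbit)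
  filter_upwards [eventually_countable_forall.2 ha, eventually_countable_forall.2 hb,
    eventually_countable_forall.2 hc] with z ha hb hc hz1 hz2
  have hfix : ∀ k, ∀ i < M, i ≠ p → (z.1 ∘ ⇑(e ^ k)) i = δ i := by
    intro k i hi hip
    rw [Function.comp_apply, sh_pow_fix hpM hi hip k]
    exact hz1 i hi hip
  have hσ : ∀ k, z.1 ∘ ⇑(e ^ k) ∈ cyl σ N := by
    intro k i hi
    rw [hfix k i (by omega) (by omega)]
    exact hδσ i hi
  have he2 : e ∘ z.2 ∈ cyl τ N := by
    intro i hi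
    rw [Function.comp_apply, hz2 i hi]
    have h1 := hτ i hi
    exact sh_fix hpM (by omega) (by omega)
  have hstep : ∀ k, F (gr (z.1 ∘ ⇑(e ^ (k + 1)))) = twice c c'
      (join (F (gr (z.1 ∘ ⇑(e ^ k)))) (join (F (gr (e ∘ z.2))) (F (gr z.2)))) := by
    intro k
    rw [twice_join, ← ha k (hσ k) he2, hb (k + 1) (hσ (k + 1)) hz2]
    have h1 : (z.1 ∘ ⇑(e ^ (k + 1))) ∘ z.2 = (z.1 ∘ ⇑(e ^ k)) ∘ (e ∘ z.2) := by
      rw [pow_succ]
      rfl
    rw [h1]
  have hseq := seq_ered (eop_twice c c') (y := fun k => F (gr (z.1 ∘ ⇑(e ^ k)))) hstep (n := n)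
  have h0 : z.1 ∘ ⇑(e ^ 0) = z.1 := rfl
  rw [h0] at hseq
  have hlev : ERed (lev (fun k => z.1 (M + 2 * k)) b)
      (join (F (gr z.1)) (join (F (gr (e ∘ z.2))) (F (gr z.2)))) := by
    refine ERed.trans ?_ hseq
    have h1 := preimage_ered (h := fun k => k + 1) Computable.succ
      {k | n ∈ F (gr (z.1 ∘ ⇑(e ^ k)))}
    have h2 : {k | k + 1 ∈ {k | n ∈ F (gr (z.1 ∘ ⇑(e ^ k)))}} =
        lev (fun k => z.1 (M + 2 * k)) b := by
      refine Set.ext fun k => ?_
      show n ∈ F (gr (z.1 ∘ ⇑(e ^ (k + 1)))) ↔ z.1 (M + 2 * k) = b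
      rw [hc (k + 1) (hfix (k + 1)), Function.comp_apply, sh_pow]
    rwa [h2] at h1
  have h3 : π (deg (join (gr z.1) (join (gr (e ∘ z.2)) (gr z.2)))) =
      deg (join (F (gr z.1)) (join (F (gr (e ∘ z.2))) (F (gr z.2)))) :=
    map_join π (hB _) (map_join π (hN _) (hN _))
  have h4 : ERed (join (gr z.1) (join (gr (e ∘ z.2)) (gr z.2))) (join (gr z.1) (gr z.2)) := by
    refine join_ered (left_ered_join _ _) (join_ered ?_ (right_ered_join _ _))
    exact (gr_left_ered (sh_computable M p hpM) z.2).trans (right_ered_join _ _)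
  calc deg (lev (fun k => z.1 (M + 2 * k)) b)
      ≤ deg (join (F (gr z.1)) (join (F (gr (e ∘ z.2))) (F (gr z.2)))) := deg_le.2 hlev
    _ = π (deg (join (gr z.1) (join (gr (e ∘ z.2)) (gr z.2)))) := h3.symm
    _ ≤ π (deg (join (gr z.1) (gr z.2))) := π.monotone (deg_le.2 h4)

/-- For most `B`, one of the two level sets of `B` is below the image of the degree of `B`. -/
theorem generic_step (π : EDeg ≃o EDeg) {F : Set ℕ → Set ℕ} (hF : Measurable F)
    (hB : ∀ x : ℕ → Bool, π (deg (gr x)) = deg (F (gr x)))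
    (hN : ∀ f : ℕ → ℕ, π (deg (gr f)) = deg (F (gr f))) :
    ∃ b : Bool, ∀ᶠ B in residual (ℕ → Bool), deg (lev B b) ≤ π (deg (gr B)) := by
  obtain ⟨c, c', σ, τ, N, hbox⟩ := box hF
    (fun A f => up π (gr_comp_ered A f) (hB _) (hB _) (hN _))
    (fun A f hf => up π (gr_ered_comp A hf) (hB _) (hB _) (hN _))
  obtain ⟨M₀, hM₀, hτM₀⟩ : ∃ M₀, N ≤ M₀ ∧ ∀ i < N, τ i < M₀ := by
    refine ⟨max N ((Finset.range N).sup τ + 1), le_max_left _ _, fun i hi => ?_⟩
    exact lt_max_of_lt_right (Nat.lt_succ_of_le (Finset.le_sup (Finset.mem_range.2 hi)))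
  have mB : Measurable fun A : ℕ → Bool => F (gr A) :=
    hF.comp (meas_gr fun n => measurable_pi_apply n)
  have hcon : ¬ ∃ C : Set ℕ, ∀ᶠ A in residual (ℕ → Bool), A ∈ cyl σ M₀ → F (gr A) = C := by
    rintro ⟨C, hC⟩
    obtain ⟨D, hD⟩ := exists_deg (π.symm (deg C))
    obtain ⟨A, hA, h1, h2⟩ := exists_of_res
      (hC.and (res_notMem_countable (countable_below D))) (isOpen_cyl σ M₀)
      ⟨σ, self_mem_cyl σ M₀⟩
    apply h2
    show ERed (gr A) D
    rw [← deg_le, hD, ← h1 hA, ← hB, OrderIso.symm_apply_apply]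
  obtain ⟨n, p, M, b, δ, hp, hpM, hδ, hbit⟩ := one_bit
    (H := fun A => F (gr A)) (fun n => (meas_iff.1 mB n).baireMeasurableSet) σ M₀ hcon
  have h1 := shift_step π hB hN hbox (hM₀.trans hp) (fun i hi => lt_of_lt_of_le (hτM₀ i hi) hp)
    hpM (fun i hi => hδ i (lt_of_lt_of_le hi hM₀)) hbit
  -- elimination of the second coordinate
  have h2 : ∀ᶠ A in residual (ℕ → Bool), (∀ i < M, i ≠ p → A i = δ i) →
      deg (lev (fun k => A (M + 2 * k)) b) ≤ π (deg (gr A)) := by
    filter_upwards [res_prod h1] with A hA hAδ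
    refine elim_auto π (α := ℕ) (freq_of_res (isOpen_cyl τ N) ⟨τ, self_mem_cyl τ N⟩ ?_)
    filter_upwards [hA] with f hf hfτ
    exact hf hAδ hfτ
  -- elimination of the other coordinates of the sequence
  have h3 : ∀ᶠ w in residual ((ℕ → Bool) × (ℕ → Bool)), w.2 ∈ cyl δ M →
      deg (lev w.1 b) ≤ π (deg (join (gr w.1) (gr w.2))) := by
    filter_upwards [res_homeo (spl M) h2] with w hw hwδ
    have h4 : (fun k => spl M w (M + 2 * k)) = w.1 := funext fun k => spl_even M w k
    rw [h4] at hw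
    refine (hw fun i hi _ => ?_).trans (π.monotone (deg_le.2 (gr_spl_ered M w.1 w.2)))
    rw [spl_apply, if_pos hi]
    exact hwδ i hi
  refine ⟨b, ?_⟩
  filter_upwards [res_prod h3] with B hB'
  refine elim_auto π (α := Bool) (freq_of_res (isOpen_cyl δ M) ⟨δ, self_mem_cyl δ M⟩ ?_)
  exact hB'

/-- An automorphism with a Borel presentation is increasing on the total degrees. -/
theorem increasing (π : EDeg ≃o EDeg) {F : Set ℕ → Set ℕ} (hF : Measurable F)
    (hB : ∀ x : ℕ → Bool, π (deg (gr x)) = deg (F (gr x)))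
    (hN : ∀ f : ℕ → ℕ, π (deg (gr f)) = deg (F (gr f))) (X : ℕ → Bool) :
    deg (gr X) ≤ π (deg (gr X)) := by
  obtain ⟨b, hb⟩ := generic_step π hF hB hN
  have hnot : ∀ (x : ℕ → Bool), lev (fun k => !(x k)) b = lev x (!b) := by
    intro x
    refine Set.ext fun k => ?_
    show (!(x k)) = b ↔ x k = !b
    cases x k <;> cases b <;> simp
  have key : ∀ x : ℕ → Bool, deg (lev x b) ≤ π (deg (gr x)) →
      deg (lev (fun k => !(x k)) b) ≤ π (deg (gr fun k => !(x k))) →
      deg (gr x) ≤ π (deg (gr x)) := by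
    intro x h1 h2
    rw [hnot] at h2
    have h3 : deg (lev x (!b)) ≤ π (deg (gr x)) :=
      h2.trans (π.monotone (deg_le.2 (gr_not_ered x)))
    refine (deg_le.2 (gr_ered_lev x b)).trans ((isLUB_join _ _).2 ?_)
    rintro d (rfl | rfl)
    · exact h1
    · exact h3
  have hn : ∀ e : ℕ → Bool, ∀ᶠ G in residual (ℕ → Bool),
      deg (lev (xrHomeo e G) b) ≤ π (deg (gr (xrHomeo e G))) := fun e => res_homeo _ hb
  refine elim_auto π (α := Bool) (freq_of_res isOpen_univ ⟨fun _ => true, trivial⟩ ?_)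
  filter_upwards [hn fun _ => false, hn fun _ => true, hn X, hn fun k => !(X k)]
    with G h1 h2 h3 h4 _
  have e1 : xrHomeo (fun _ => false) G = G := by
    funext k
    simp [xrHomeo_apply]
  have e2 : xrHomeo (fun _ => true) G = fun k => !(G k) := by
    funext k
    simp [xrHomeo_apply]
  have e3 : xrHomeo X G = xr X G := rfl
  have e4 : xrHomeo (fun k => !(X k)) G = fun k => !(xr X G k) := by
    funext k
    rw [xrHomeo_apply]
    show xor (!(X k)) (G k) = !(xor (X k) (G k))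
    cases X k <;> cases G k <;> rfl
  rw [e1] at h1
  rw [e2] at h2
  rw [e3] at h3
  rw [e4] at h4
  have h5 : deg (gr G) ≤ π (deg (join (gr X) (gr G))) :=
    (key G h1 h2).trans (π.monotone (deg_le.2 (right_ered_join _ _)))
  have h6 : deg (gr (xr X G)) ≤ π (deg (join (gr X) (gr G))) :=
    (key _ h3 h4).trans (π.monotone (deg_le.2 (gr_xr_ered X G)))
  have h7 : ERed (gr X) (join (gr G) (gr (xr X G))) := by
    have h8 : xr G (xr X G) = X := by
      funext k
      show xor (G k) (xor (X k) (G k)) = X k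
      cases X k <;> cases G k <;> rfl
    have h9 := gr_xr_ered G (xr X G)
    rwa [h8] at h9
  refine (deg_le.2 h7).trans ((isLUB_join _ _).2 ?_)
  rintro d (rfl | rfl)
  · exact h5
  · exact h6

end Pool.Agent.EDB
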