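import Pool.Agent.EDB.Comp

/-!
# Enumeration reducibility and the enumeration degrees (for MP_431ff4_lc)
-/

namespace Pool.Agent.EDB

/-- The canonical index of a finite set of natural numbers. -/
def code (D : Finset ℕ) : ℕ := ∑ i ∈ D, 2 ^ i

/-- Enumeration reducibility `A ≤ₑ B`: there is a computably enumerable set `W` such that
`x ∈ A` if and only if `⟨x, code D⟩ ∈ W` for some finite `D ⊆ B`. -/
def ERed (A B : Set ℕ) : Prop :=
  ∃ W : Set ℕ, REPred (fun n => n ∈ W) ∧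
    A = {x | ∃ D : Finset ℕ, (D : Set ℕ) ⊆ B ∧ Nat.pair x (code D) ∈ W}

/-! ### Canonical indices -/

/-- The elements of the finite set with canonical index `c`. -/
def elts (c : ℕ) : List ℕ := (List.range (c + 1)).filter fun i => c / 2 ^ i % 2 = 1

theorem elts_primrec : Primrec elts := by
  have hR : PrimrecRel fun i c : ℕ => c / 2 ^ i % 2 = 1 := by
    have hpow : Primrec₂ fun a b : ℕ => a ^ b := Primrec₂.unpaired'.1 Nat.Primrec.pow
    have h1 : Primrec fun p : ℕ × ℕ => p.2 / 2 ^ p.1 % 2 :=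
      Primrec.nat_mod.comp (Primrec.nat_div.comp Primrec.snd
        (hpow.comp (Primrec.const 2) Primrec.fst)) (Primrec.const 2)
    exact Primrec.eq.comp h1 (Primrec.const 1)
  have h2 := hR.listFilter
  exact h2.comp (Primrec.list_range.comp Primrec.succ) Primrec.id

theorem mem_elts {i c : ℕ} : i ∈ elts c ↔ i ∈ c.bitIndices := by
  rw [Nat.mem_bitIndices, Nat.testBit_eq_decide_div_mod_eq, decide_eq_true_iff]
  unfold elts
  rw [List.mem_filter, decide_eq_true_iff, and_iff_right_iff_imp]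
  intro h
  rw [List.mem_range]
  by_contra hc
  have h1 : c < 2 ^ i := lt_of_lt_of_le (Nat.lt_of_lt_of_le (Nat.lt_succ_self c) (not_lt.1 hc))
    (Nat.lt_two_pow_self).le
  rw [Nat.div_eq_of_lt h1] at h
  simp at h

theorem toFinset_bitIndices_code (D : Finset ℕ) : (code D).bitIndices.toFinset = D :=
  Finset.equivBitIndices.apply_symm_apply D

theorem code_toFinset_bitIndices (c : ℕ) : code c.bitIndices.toFinset = c :=
  Finset.equivBitIndices.symm_apply_apply c

theorem mem_elts_code {i : ℕ} {D : Finset ℕ} : i ∈ elts (code D) ↔ i ∈ D := by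
  rw [mem_elts, ← List.mem_toFinset, toFinset_bitIndices_code]

/-- A finite set with prescribed elements. -/
theorem exists_code (c : ℕ) : ∃ D : Finset ℕ, code D = c ∧ ∀ i, i ∈ D ↔ i ∈ elts c :=
  ⟨c.bitIndices.toFinset, code_toFinset_bitIndices c, fun i => by rw [mem_elts, List.mem_toFinset]⟩

/-! ### Enumeration operators given by codes -/

/-- The enumeration operator with code `c`. -/
def op (c : Nat.Partrec.Code) (B : Set ℕ) : Set ℕ :=
  {x | ∃ D : Finset ℕ, (D : Set ℕ) ⊆ B ∧ (c.eval (Nat.pair x (code D))).Dom}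

theorem re_dom (c : Nat.Partrec.Code) : REPred fun n : ℕ => (c.eval n).Dom := by
  refine re_iff.2 ⟨fun q => (Nat.Partrec.Code.evaln q.2 c q.1).isSome, ?_, fun a => ?_⟩
  · have h1 : Computable fun q : ℕ × ℕ => Nat.Partrec.Code.evaln q.2 c q.1 :=
      Nat.Partrec.Code.primrec_evaln.to_comp.comp
        ((Computable.snd.pair (Computable.const c)).pair Computable.fst)
    exact Primrec.option_isSome.to_comp.comp h1
  · rw [Part.dom_iff_mem]
    constructor
    · rintro ⟨y, hy⟩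
      obtain ⟨k, hk⟩ := Nat.Partrec.Code.evaln_complete.1 hy
      exact ⟨k, Option.isSome_iff_exists.2 ⟨y, hk⟩⟩
    · rintro ⟨k, hk⟩
      obtain ⟨y, hy⟩ := Option.isSome_iff_exists.1 hk
      exact ⟨y, Nat.Partrec.Code.evaln_sound hy⟩

theorem exists_dom {W : Set ℕ} (hW : REPred fun n => n ∈ W) :
    ∃ c : Nat.Partrec.Code, ∀ n, n ∈ W ↔ (c.eval n).Dom := by
  obtain ⟨c, hc⟩ := Nat.Partrec.Code.exists_code.1 hW
  refine ⟨c, fun n => ?_⟩
  rw [hc]
  simp [Part.dom_iff_mem, Part.assert]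

theorem ered_iff_op {A B : Set ℕ} : ERed A B ↔ ∃ c, A = op c B := by
  constructor
  · rintro ⟨W, hW, rfl⟩
    obtain ⟨c, hc⟩ := exists_dom hW
    refine ⟨c, Set.ext fun x => ?_⟩
    show (∃ D : Finset ℕ, (D : Set ℕ) ⊆ B ∧ Nat.pair x (code D) ∈ W) ↔
      ∃ D : Finset ℕ, (D : Set ℕ) ⊆ B ∧ (c.eval (Nat.pair x (code D))).Dom
    exact exists_congr fun D => and_congr_right fun _ => hc _
  · rintro ⟨c, rfl⟩
    exact ⟨{n | (c.eval n).Dom}, re_dom c, rfl⟩

theorem eop_op (c : Nat.Partrec.Code) : EOp (op c) := by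
  have h1 : Pos fun B (q : ℕ × ℕ) => (∀ y ∈ elts q.2, y ∈ B) ∧
      (c.eval (Nat.pair q.1 q.2)).Dom := by
    refine pos_and ?_ (pos_re (re_comp (re_dom c)
      (Primrec₂.natPair.to_comp.comp Computable.fst Computable.snd)))
    exact pos_ball_list (P := fun B (r : (ℕ × ℕ) × ℕ) => r.2 ∈ B) (pos_mem Computable.snd)
      (elts_primrec.to_comp.comp Computable.snd)
  refine (pos_ex (P := fun B (q : ℕ × ℕ) => (∀ y ∈ elts q.2, y ∈ B) ∧
      (c.eval (Nat.pair q.1 q.2)).Dom) h1).of_eq fun B x => ?_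
  constructor
  · rintro ⟨d, h2, h3⟩
    obtain ⟨D, rfl, hD⟩ := exists_code d
    exact ⟨D, fun y hy => h2 y ((hD y).1 hy), h3⟩
  · rintro ⟨D, h2, h3⟩
    exact ⟨code D, fun y hy => h2 (mem_elts_code.1 hy), h3⟩

theorem EOp.exists_op {Θ : Set ℕ → Set ℕ} (hΘ : EOp Θ) : ∃ c, ∀ B, Θ B = op c B := by
  obtain ⟨R, hR, h⟩ := hΘ
  let W : Set ℕ := {m | ∃ l : List ℕ, (∀ y ∈ l, y ∈ elts m.unpair.2) ∧ R (m.unpair.1, l)}
  have hW : REPred fun n => n ∈ W := by
    refine re_exists (p := fun q : ℕ × List ℕ =>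
      (∀ y ∈ q.2, y ∈ elts q.1.unpair.2) ∧ R (q.1.unpair.1, q.2)) (re_and ?_ ?_)
    · refine re_ball_list (p := fun r : (ℕ × List ℕ) × ℕ => r.2 ∈ elts r.1.1.unpair.2)
        (re_mem Computable.snd ?_) Computable.snd
      exact elts_primrec.to_comp.comp (Computable.snd.comp (Computable.unpair.comp
        (Computable.fst.comp Computable.fst)))
    · exact re_comp hR ((Computable.fst.comp (Computable.unpair.comp Computable.fst)).pair
        Computable.snd)
  obtain ⟨c, hc⟩ := exists_dom hW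
  refine ⟨c, fun B => Set.ext fun x => (h B x).trans ?_⟩
  constructor
  · rintro ⟨l, h1, h2⟩
    refine ⟨l.toFinset, fun y hy => h1 y (List.mem_toFinset.1 hy), ?_⟩
    rw [← hc]
    refine ⟨l, fun y hy => ?_, ?_⟩
    · rw [Nat.unpair_pair]
      exact mem_elts_code.2 (List.mem_toFinset.2 hy)
    · rw [Nat.unpair_pair]
      exact h2
  · rintro ⟨D, h1, h2⟩
    rw [← hc] at h2
    obtain ⟨l, h3, h4⟩ := h2
    rw [Nat.unpair_pair] at h3 h4
    exact ⟨l, fun y hy => h1 (mem_elts_code.1 (h3 y hy)), h4⟩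

theorem ered_iff {A B : Set ℕ} : ERed A B ↔ ∃ Θ, EOp Θ ∧ A = Θ B := by
  rw [ered_iff_op]
  constructor
  · rintro ⟨c, hc⟩
    exact ⟨op c, eop_op c, hc⟩
  · rintro ⟨Θ, hΘ, h⟩
    obtain ⟨c, hc⟩ := hΘ.exists_op
    exact ⟨c, by rw [h, hc]⟩

theorem EOp.ered {Θ : Set ℕ → Set ℕ} (hΘ : EOp Θ) (B : Set ℕ) : ERed (Θ B) B :=
  ered_iff.2 ⟨Θ, hΘ, rfl⟩

theorem ERed.refl (A : Set ℕ) : ERed A A := ered_iff.2 ⟨fun B => B, eop_id, rfl⟩

theorem ERed.trans {A B C : Set ℕ} (h1 : ERed A B) (h2 : ERed B C) : ERed A C := by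
  obtain ⟨Θ, hΘ, rfl⟩ := ered_iff.1 h1
  obtain ⟨Φ, hΦ, rfl⟩ := ered_iff.1 h2
  exact ered_iff.2 ⟨_, hΘ.comp hΦ, rfl⟩

/-! ### The degrees -/

/-- Sets of natural numbers, preordered by enumeration reducibility. -/
def ESet : Type := Set ℕ

instance : Preorder ESet where
  le A B := ERed A B
  le_refl A := ERed.refl A
  le_trans _ _ _ h1 h2 := ERed.trans h1 h2

/-- The enumeration degrees: sets of natural numbers modulo `A ≤ₑ B ∧ B ≤ₑ A`, with the order
induced by enumeration reducibility. -/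
abbrev EDeg : Type := Antisymmetrization ESet (· ≤ ·)

/-- The enumeration degree of a set. -/
def deg (A : Set ℕ) : EDeg := toAntisymmetrization (· ≤ ·) (show ESet from A)

theorem deg_le {A B : Set ℕ} : deg A ≤ deg B ↔ ERed A B :=
  toAntisymmetrization_le_toAntisymmetrization_iff

theorem deg_eq {A B : Set ℕ} : deg A = deg B ↔ ERed A B ∧ ERed B A := by
  rw [le_antisymm_iff, deg_le, deg_le]

theorem exists_deg (a : EDeg) : ∃ A : Set ℕ, deg A = a :=
  ⟨ofAntisymmetrization (α := ESet) (· ≤ ·) a,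
    toAntisymmetrization_ofAntisymmetrization (α := ESet) (· ≤ ·) a⟩

/-! ### Joins -/

/-- `A ⊕ B`. -/
def join (A B : Set ℕ) : Set ℕ := {n | (n % 2 = 0 ∧ n / 2 ∈ A) ∨ (n % 2 = 1 ∧ n / 2 ∈ B)}

theorem comp_div2 : Computable fun n : ℕ => n / 2 :=
  (Primrec.nat_div.comp Primrec.id (Primrec.const 2)).to_comp

theorem comp_mod2 : Computable fun n : ℕ => n % 2 :=
  (Primrec.nat_mod.comp Primrec.id (Primrec.const 2)).to_comp

theorem comp_two_mul : Computable fun n : ℕ => 2 * n :=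
  (Primrec.nat_mul.comp (Primrec.const 2) Primrec.id).to_comp

theorem comp_two_mul_add : Computable fun n : ℕ => 2 * n + 1 :=
  Computable.succ.comp comp_two_mul

theorem two_mul_mem_join {A B : Set ℕ} {n : ℕ} : 2 * n ∈ join A B ↔ n ∈ A := by
  show ((2 * n) % 2 = 0 ∧ (2 * n) / 2 ∈ A) ∨ ((2 * n) % 2 = 1 ∧ (2 * n) / 2 ∈ B) ↔ n ∈ A
  constructor
  · rintro (⟨-, h⟩ | ⟨h, -⟩)
    · rwa [Nat.mul_div_cancel_left _ two_pos] at h
    · omega
  · intro h
    exact Or.inl ⟨by omega, by rwa [Nat.mul_div_cancel_left _ two_pos]⟩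

theorem two_mul_add_mem_join {A B : Set ℕ} {n : ℕ} : 2 * n + 1 ∈ join A B ↔ n ∈ B := by
  show ((2 * n + 1) % 2 = 0 ∧ (2 * n + 1) / 2 ∈ A) ∨
    ((2 * n + 1) % 2 = 1 ∧ (2 * n + 1) / 2 ∈ B) ↔ n ∈ B
  have h1 : (2 * n + 1) / 2 = n := by omega
  rw [h1]
  constructor
  · rintro (⟨h, -⟩ | ⟨-, h⟩)
    · omega
    · exact h
  · intro h
    exact Or.inr ⟨by omega, h⟩

/-- A pair of positive predicates in `A` and `B` is positive in `A ⊕ B`. -/
theorem eop_left : EOp fun J => {n | 2 * n ∈ J} := pos_mem comp_two_mul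

theorem eop_right : EOp fun J => {n | 2 * n + 1 ∈ J} := pos_mem comp_two_mul_add

theorem eop_join {Θ Φ : Set ℕ → Set ℕ} (hΘ : EOp Θ) (hΦ : EOp Φ) :
    EOp fun B => join (Θ B) (Φ B) := by
  refine pos_or (pos_and ?_ ?_) (pos_and ?_ ?_)
  · exact pos_re (re_eq comp_mod2 (Computable.const 0))
  · exact pos_comp hΘ comp_div2
  · exact pos_re (re_eq comp_mod2 (Computable.const 1))
  · exact pos_comp hΦ comp_div2

theorem left_ered_join (A B : Set ℕ) : ERed A (join A B) := by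
  have h := eop_left.ered (join A B)
  have h1 : {n | 2 * n ∈ join A B} = A := Set.ext fun n => two_mul_mem_join
  rwa [h1] at h

theorem right_ered_join (A B : Set ℕ) : ERed B (join A B) := by
  have h := eop_right.ered (join A B)
  have h1 : {n | 2 * n + 1 ∈ join A B} = B := Set.ext fun n => two_mul_add_mem_join
  rwa [h1] at h

theorem join_ered {A B C : Set ℕ} (h1 : ERed A C) (h2 : ERed B C) : ERed (join A B) C := by
  obtain ⟨Θ, hΘ, rfl⟩ := ered_iff.1 h1
  obtain ⟨Φ, hΦ, rfl⟩ := ered_iff.1 h2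
  exact ered_iff.2 ⟨_, eop_join hΘ hΦ, rfl⟩

theorem isLUB_join (A B : Set ℕ) : IsLUB {deg A, deg B} (deg (join A B)) := by
  constructor
  · rintro x (rfl | rfl)
    · exact deg_le.2 (left_ered_join A B)
    · exact deg_le.2 (right_ered_join A B)
  · intro x hx
    obtain ⟨C, rfl⟩ := exists_deg x
    exact deg_le.2 (join_ered (deg_le.1 (hx (Set.mem_insert _ _)))
      (deg_le.1 (hx (Set.mem_insert_of_mem _ rfl))))

/-- Automorphisms preserve joins. -/
theorem map_join (π : EDeg ≃o EDeg) {A B A' B' : Set ℕ} (hA : π (deg A) = deg A')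
    (hB : π (deg B) = deg B') : π (deg (join A B)) = deg (join A' B') := by
  refine IsLUB.unique ?_ (isLUB_join A' B')
  have h := (OrderIso.isLUB_image' π (s := {deg A, deg B}) (x := deg (join A B))).2
    (isLUB_join A B)
  rwa [Set.image_pair, hA, hB] at h

end Pool.Agent.EDB
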