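import Pool.Agent.EDB.Red
import Pool.Agent.EDB.Cat

/-!
# Elimination of generic parameters (for MP_431ff4_lc)
-/

namespace Pool.Agent.EDB

open Topology Filter

/-- The finite graph given by a list. -/
def grl {α : Type} [Primcodable α] (s : List α) : Set ℕ :=
  {m | ∃ v : α, s[m.unpair.1]? = some v ∧ Encodable.encode v = m.unpair.2}

theorem re_grl {α : Type} [Primcodable α] : REPred fun q : ℕ × List α => q.1 ∈ grl q.2 := by
  refine re_exists (p := fun r : (ℕ × List α) × α =>
    r.1.2[r.1.1.unpair.1]? = some r.2 ∧ Encodable.encode r.2 = r.1.1.unpair.2) (re_and ?_ ?_)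
  · exact re_eq (Primrec.list_getElem?.to_comp.comp (Computable.snd.comp Computable.fst)
      (comp_un1 (Computable.fst.comp Computable.fst)))
      (Computable.option_some.comp Computable.snd)
  · exact re_eq (Computable.encode.comp Computable.snd)
      (comp_un2 (Computable.fst.comp Computable.fst))

theorem grl_app_subset {α : Type} [Primcodable α] (g : ℕ → α) (k : ℕ) :
    grl (app g k) ⊆ gr g := by
  rintro m ⟨v, h1, h2⟩
  have hk : m.unpair.1 < k := by
    by_contra hcon
    rw [List.getElem?_eq_none (by rw [app_length]; exact not_lt.1 hcon)] at h1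
    exact absurd h1 (by simp)
  rw [app_getElem? _ hk, Option.some.injEq] at h1
  rw [mem_gr', h1]
  exact h2

theorem mem_grl_app {α : Type} [Primcodable α] {g : ℕ → α} {m : ℕ} (hm : m ∈ gr g) {k : ℕ}
    (hk : m.unpair.1 < k) : m ∈ grl (app g k) :=
  ⟨g m.unpair.1, app_getElem? _ hk, hm⟩

theorem op_mono (c : Nat.Partrec.Code) (B C : Set ℕ) (h : B ⊆ C) : op c B ⊆ op c C :=
  (eop_op c).mono h

theorem op_compact (c : Nat.Partrec.Code) (B : Set ℕ) (n : ℕ) (hn : n ∈ op c B) :
    ∃ l : List ℕ, (∀ y ∈ l, y ∈ B) ∧ n ∈ op c {y | y ∈ l} :=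
  Pos.compact (eop_op c) hn

theorem join_mono {A A' B B' : Set ℕ} (h1 : A ⊆ A') (h2 : B ⊆ B') : join A B ⊆ join A' B' := by
  rintro n (⟨h3, h4⟩ | ⟨h3, h4⟩)
  · exact Or.inl ⟨h3, h1 h4⟩
  · exact Or.inr ⟨h3, h2 h4⟩

/-- A positive predicate of a join with a parameter given by a recursively enumerable family. -/
theorem pos_join_param {β : Type} [Primcodable β] {Θ : Set ℕ → Set ℕ} (hΘ : EOp Θ)
    {G : β → Set ℕ} (hG : REPred fun q : ℕ × β => q.1 ∈ G q.2) :
    Pos fun Z (q : ℕ × β) => q.1 ∈ Θ (join Z (G q.2)) := by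
  obtain ⟨R, hR, h⟩ := hΘ
  have h0 : REPred fun s : ((ℕ × β) × List ℕ) × ℕ => s.2 / 2 ∈ G s.1.1.2 :=
    re_comp (p := fun q : ℕ × β => q.1 ∈ G q.2) hG
      (f := fun s : ((ℕ × β) × List ℕ) × ℕ => (s.2 / 2, s.1.1.2))
      ((comp_div2.comp Computable.snd).pair
        (Computable.snd.comp (Computable.fst.comp Computable.fst)))
  have h1 : Pos fun Z (r : (ℕ × β) × List ℕ) =>
      (∀ y ∈ r.2, y ∈ join Z (G r.1.2)) ∧ R (r.1.1, r.2) := by
    refine pos_and ?_ (pos_re (re_comp hR ((Computable.fst.comp Computable.fst).pair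
      Computable.snd)))
    refine pos_ball_list (P := fun Z (s : ((ℕ × β) × List ℕ) × ℕ) =>
      s.2 ∈ join Z (G s.1.1.2)) ?_ Computable.snd
    refine pos_or (pos_and (pos_re (re_eq (comp_mod2.comp Computable.snd)
      (Computable.const 0))) (pos_mem (comp_div2.comp Computable.snd))) (pos_and (pos_re (re_eq
      (comp_mod2.comp Computable.snd) (Computable.const 1))) (pos_re h0))
  exact (pos_ex (P := fun Z (r : (ℕ × β) × List ℕ) =>
      (∀ y ∈ r.2, y ∈ join Z (G r.1.2)) ∧ R (r.1.1, r.2)) h1).of_eq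
    fun Z q => (h (join Z (G q.2)) q.1).symm

/-- GENERIC ELIMINATION. If `Y` is reducible to `Z ⊕ graph g` for a nonmeager set of `g`, then `Y`
is reducible to `Z`. -/
theorem elim {α : Type} [Primcodable α] [TopologicalSpace α] [DiscreteTopology α] [Nonempty α]
    {Y Z : Set ℕ} (h : ∃ᶠ g in residual (ℕ → α), ERed Y (join Z (gr g))) : ERed Y Z := by
  obtain ⟨c, s₀, -, hY⟩ := somewhere (α := α) (Y := Y) (Φ := op) op_mono op_compact
    (Q := fun g => join Z (gr g)) (q := fun s => join Z (grl s))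
    (fun g k => join_mono (fun _ h => h) (grl_app_subset g k))
    (by
      rintro g m (⟨h1, h2⟩ | ⟨h1, h2⟩)
      · exact ⟨0, fun k' _ => Or.inl ⟨h1, h2⟩⟩
      · exact ⟨(m / 2).unpair.1 + 1, fun k' hk' => Or.inr ⟨h1, mem_grl_app h2 hk'⟩⟩)
    (h.mono fun g hg => ered_iff_op.1 hg)
  have h1 : EOp fun Z => {n | ∃ s : List α, s.take s₀.length = s₀ ∧ n ∈ op c (join Z (grl s))} := by
    refine pos_ex (P := fun Z (q : ℕ × List α) => q.2.take s₀.length = s₀ ∧
      q.1 ∈ op c (join Z (grl q.2))) (pos_and (pos_re ?_) ?_)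
    · exact re_eq (Primrec.list_take.to_comp.comp (Computable.const _) Computable.snd)
        (Computable.const _)
    · exact pos_join_param (eop_op c) re_grl
  have h2 := h1.ered Z
  rwa [← hY] at h2

/-- The same, under an automorphism. -/
theorem elim_auto (π : EDeg ≃o EDeg) {α : Type} [Primcodable α] [TopologicalSpace α]
    [DiscreteTopology α] [Nonempty α] {P Z : Set ℕ}
    (h : ∃ᶠ g in residual (ℕ → α), deg P ≤ π (deg (join Z (gr g)))) :
    deg P ≤ π (deg Z) := by
  obtain ⟨Y, hY⟩ := exists_deg (π.symm (deg P))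
  have h1 : ERed Y Z := by
    refine elim (α := α) (h.mono fun g hg => ?_)
    rw [← deg_le, hY]
    exact π.symm_apply_le.2 hg
  rw [← deg_le, hY] at h1
  exact π.symm_apply_le.1 h1

/-- SELMAN. If `Y` is reducible to the graph of `e ∘ g` for a nonmeager set of `g`, then `Y` is
reducible to the range of `e`. -/
theorem selman {Y : Set ℕ} {e : ℕ → ℕ}
    (h : ∃ᶠ g in residual (ℕ → ℕ), ERed Y (gr (e ∘ g))) : ERed Y (Set.range e) := by
  have hmap : ∀ (g : ℕ → ℕ) (k : ℕ), (app g k).map e = app (e ∘ g) k := by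
    intro g k
    simp [app, List.map_map]
  obtain ⟨c, s₀, -, hY⟩ := somewhere (α := ℕ) (Y := Y) (Φ := op) op_mono op_compact
    (Q := fun g => gr (e ∘ g)) (q := fun s => grl (s.map e))
    (fun g k => by
      rw [hmap]
      exact grl_app_subset _ _)
    (by
      intro g m hm
      refine ⟨m.unpair.1 + 1, fun k' hk' => ?_⟩
      rw [hmap]
      exact mem_grl_app hm hk')
    (h.mono fun g hg => ered_iff_op.1 hg)
  have h1 : EOp fun B => {n | ∃ t : List ℕ, (∀ y ∈ t, y ∈ B) ∧
      t.take s₀.length = s₀.map e ∧ n ∈ op c (grl t)} := by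
    refine pos_ex (P := fun B (q : ℕ × List ℕ) => (∀ y ∈ q.2, y ∈ B) ∧
      q.2.take s₀.length = s₀.map e ∧ q.1 ∈ op c (grl q.2)) (pos_and ?_ (pos_re (re_and ?_ ?_)))
    · exact pos_ball_list (P := fun B (r : (ℕ × List ℕ) × ℕ) => r.2 ∈ B)
        (pos_mem Computable.snd) Computable.snd
    · exact re_eq (Primrec.list_take.to_comp.comp (Computable.const _) Computable.snd)
        (Computable.const _)
    · obtain ⟨R, hR, hop⟩ := eop_op c
      have h2 : REPred fun q : ℕ × List ℕ =>
          ∃ l : List ℕ, (∀ y ∈ l, y ∈ grl q.2) ∧ R (q.1, l) := by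
        refine re_exists (p := fun r : (ℕ × List ℕ) × List ℕ =>
          (∀ y ∈ r.2, y ∈ grl r.1.2) ∧ R (r.1.1, r.2)) (re_and ?_ ?_)
        · have h3 : REPred fun s : ((ℕ × List ℕ) × List ℕ) × ℕ => s.2 ∈ grl s.1.1.2 :=
            re_comp (p := fun q : ℕ × List ℕ => q.1 ∈ grl q.2) (re_grl (α := ℕ))
              (f := fun s : ((ℕ × List ℕ) × List ℕ) × ℕ => (s.2, s.1.1.2))
              (Computable.snd.pair (Computable.snd.comp (Computable.fst.comp Computable.fst)))
          exact re_ball_list (p := fun s : ((ℕ × List ℕ) × List ℕ) × ℕ => s.2 ∈ grl s.1.1.2)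
            h3 (l := fun r : (ℕ × List ℕ) × List ℕ => r.2) Computable.snd
        · exact re_comp hR ((Computable.fst.comp Computable.fst).pair Computable.snd)
      exact h2.of_eq fun q => (hop (grl q.2) q.1).symm
  have h2 := h1.ered (Set.range e)
  have h3 : {n | ∃ t : List ℕ, (∀ y ∈ t, y ∈ Set.range e) ∧
      t.take s₀.length = s₀.map e ∧ n ∈ op c (grl t)} = Y := by
    rw [hY]
    ext n
    constructor
    · rintro ⟨t, ht1, ht2, ht3⟩
      choose! u hu using ht1
      have h4 : (t.drop s₀.length).map (fun y => e (u y)) = t.drop s₀.length := by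
        conv_rhs => rw [← List.map_id (t.drop s₀.length)]
        exact List.map_congr_left fun y hy => hu y (List.mem_of_mem_drop hy)
      refine ⟨s₀ ++ (t.drop s₀.length).map u, ?_, ?_⟩
      · rw [List.take_left']
        rfl
      · have h5 : (s₀ ++ (t.drop s₀.length).map u).map e = t := by
          rw [List.map_append, List.map_map, ← ht2]
          have h6 : (t.drop s₀.length).map (e ∘ u) = t.drop s₀.length := h4
          rw [h6, List.take_append_drop]
        rw [h5]
        exact ht3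
    · rintro ⟨s, hs1, hs2⟩
      refine ⟨s.map e, ?_, ?_, hs2⟩
      · intro y hy
        obtain ⟨x, -, rfl⟩ := List.mem_map.1 hy
        exact ⟨x, rfl⟩
      · rw [← List.map_take, hs1]
  rwa [h3] at h2

end Pool.Agent.EDB
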