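import Pool.Agent.EDB.Core2

/-!
# The enumeration degrees have no nontrivial Borel automorphism (for MP_431ff4_lc)
-/

namespace Pool.Agent.EDB

open Topology Filter

/-! ### Graphs of arbitrary functions and binary sequences -/

open Classical in
/-- The characteristic function of a set. -/
noncomputable def chi (T : Set ℕ) : ℕ → Bool := fun k => decide (k ∈ T)

theorem chi_true {T : Set ℕ} {k : ℕ} (h : k ∈ T) : chi T k = true := by
  classical
  unfold chi
  exact decide_eq_true h

theorem chi_false {T : Set ℕ} {k : ℕ} (h : k ∉ T) : chi T k = false := by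
  classical
  unfold chi
  exact decide_eq_false h

theorem lev_chi (T : Set ℕ) : lev (chi T) true = T := by
  refine Set.ext fun k => ?_
  show chi T k = true ↔ k ∈ T
  by_cases h : k ∈ T
  · exact iff_of_true (chi_true h) h
  · refine iff_of_false ?_ h
    rw [chi_false h]
    exact Bool.false_ne_true

/-- The degree of the graph of a function is the degree of the graph of the characteristic function
of its graph. -/
theorem gr_chi_gr (f : ℕ → ℕ) : deg (gr (chi (gr f))) = deg (gr f) := by
  rw [deg_eq]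
  constructor
  · have h : EOp fun J => {m | (m.unpair.2 = Encodable.encode true ∧ m.unpair.1 ∈ J) ∨
        (m.unpair.2 = Encodable.encode false ∧ ∃ w : ℕ,
          Nat.pair m.unpair.1.unpair.1 w ∈ J ∧ (w < m.unpair.1.unpair.2 ∨
            m.unpair.1.unpair.2 < w))} := by
      refine pos_or (pos_and (pos_re (re_eq (comp_un2 Computable.id) (Computable.const _)))
        (pos_mem (comp_un1 Computable.id))) (pos_and (pos_re (re_eq
        (comp_un2 Computable.id) (Computable.const _))) ?_)
      refine pos_ex (P := fun J (q : ℕ × ℕ) => Nat.pair q.1.unpair.1.unpair.1 q.2 ∈ J ∧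
        (q.2 < q.1.unpair.1.unpair.2 ∨ q.1.unpair.1.unpair.2 < q.2)) (pos_and (pos_mem
        (comp_pair (comp_un1 (comp_un1 Computable.fst)) Computable.snd)) (pos_re (re_or ?_ ?_)))
      · exact re_dec (Primrec.nat_lt.comp Primrec.snd (Primrec.snd.comp (Primrec.unpair.comp
          (Primrec.fst.comp (Primrec.unpair.comp Primrec.fst)))))
      · exact re_dec (Primrec.nat_lt.comp (Primrec.snd.comp (Primrec.unpair.comp
          (Primrec.fst.comp (Primrec.unpair.comp Primrec.fst)))) Primrec.snd)
    refine ered_iff.2 ⟨_, h, Set.ext fun m => ?_⟩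
    show Encodable.encode (chi (gr f) m.unpair.1) = m.unpair.2 ↔
      (m.unpair.2 = Encodable.encode true ∧ m.unpair.1 ∈ gr f) ∨
        (m.unpair.2 = Encodable.encode false ∧ ∃ w : ℕ,
          Nat.pair m.unpair.1.unpair.1 w ∈ gr f ∧ (w < m.unpair.1.unpair.2 ∨
            m.unpair.1.unpair.2 < w))
    generalize m.unpair.1 = i
    generalize m.unpair.2 = v
    by_cases hi : i ∈ gr f
    · have h1 : chi (gr f) i = true := chi_true hi
      rw [h1]
      constructor
      · intro h2
        exact Or.inl ⟨h2.symm, hi⟩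
      · rintro (⟨h2, -⟩ | ⟨-, w, h3, h4⟩)
        · exact h2.symm
        · rw [mem_gr] at h3
          rw [mem_gr', h3] at hi
          omega
    · have h1 : chi (gr f) i = false := chi_false hi
      rw [h1]
      constructor
      · intro h2
        refine Or.inr ⟨h2.symm, f i.unpair.1, mem_gr.2 rfl, ?_⟩
        have h3 : ¬ f i.unpair.1 = i.unpair.2 := hi
        omega
      · rintro (⟨-, h2⟩ | ⟨h2, -⟩)
        · exact absurd h2 hi
        · exact h2.symm
  · have h := lev_ered (chi (gr f)) true
    rwa [lev_chi] at h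

/-! ### A Borel presentation of the inverse -/

theorem meas_ered {X : Type*} [MeasurableSpace X] {G K : X → Set ℕ} (hG : Measurable G)
    (hK : Measurable K) : MeasurableSet {x | ERed (G x) (K x)} := by
  have h1 : {x | ERed (G x) (K x)} = ⋃ c, {x | G x = op c (K x)} := by
    ext x
    rw [Set.mem_iUnion]
    exact ered_iff_op
  rw [h1]
  exact MeasurableSet.iUnion fun c => meas_eq hG (meas_op c hK)

/-- The operator with code `c` gives a preimage of the degree of `A`. -/
def Good (F : Set ℕ → Set ℕ) (c : Nat.Partrec.Code) (A : Set ℕ) : Prop :=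
  ERed (F (op c A)) A ∧ ERed A (F (op c A))

/-- The candidate presentation of the inverse. -/
def inv (F : Set ℕ → Set ℕ) (A : Set ℕ) : Set ℕ :=
  {n | ∃ k : ℕ, (∃ c : Nat.Partrec.Code, Encodable.encode c = k ∧ Good F c A ∧ n ∈ op c A) ∧
    ∀ c : Nat.Partrec.Code, Encodable.encode c < k → ¬ Good F c A}

theorem meas_inv {F : Set ℕ → Set ℕ} (hF : Measurable F) : Measurable (inv F) := by
  rw [meas_iff]
  intro n
  have hop : ∀ c, Measurable fun A : Set ℕ => op c A := fun c => meas_op c measurable_id
  have hg : ∀ c, MeasurableSet {A | Good F c A} := fun c =>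
    (meas_ered (hF.comp (hop c)) measurable_id).inter (meas_ered measurable_id (hF.comp (hop c)))
  have h1 : {A | n ∈ inv F A} = ⋃ k : ℕ, (⋃ c : Nat.Partrec.Code,
      {_A : Set ℕ | Encodable.encode c = k} ∩ ({A | Good F c A} ∩ {A | n ∈ op c A})) ∩
      ⋂ c : Nat.Partrec.Code, ({_A : Set ℕ | Encodable.encode c < k}ᶜ ∪ {A | Good F c A}ᶜ) := by
    ext A
    simp only [Set.mem_iUnion, Set.mem_inter_iff, Set.mem_iInter, Set.mem_union,
      Set.mem_compl_iff]
    refine exists_congr fun k => and_congr Iff.rfl (forall_congr' fun c => ?_)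
    exact imp_iff_not_or
  rw [h1]
  refine MeasurableSet.iUnion fun k => MeasurableSet.inter (MeasurableSet.iUnion fun c => ?_)
    (MeasurableSet.iInter fun c => ?_)
  · exact (MeasurableSet.const _).inter ((hg c).inter (meas_iff.1 (hop c) n))
  · exact (MeasurableSet.const _).compl.union (hg c).compl

theorem inv_spec {F : Set ℕ → Set ℕ} {A : Set ℕ} (h : ∃ c, Good F c A) :
    ∃ c, Good F c A ∧ inv F A = op c A := by
  classical
  have h' : ∃ k : ℕ, ∃ c : Nat.Partrec.Code, Encodable.encode c = k ∧ Good F c A := by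
    obtain ⟨c, hc⟩ := h
    exact ⟨_, c, rfl, hc⟩
  obtain ⟨c, hck, hc⟩ := Nat.find_spec h'
  refine ⟨c, hc, Set.ext fun n => ?_⟩
  constructor
  · rintro ⟨k, ⟨d, hdk, hd, hn⟩, hk⟩
    have h1 : k = Nat.find h' := by
      refine le_antisymm ?_ (Nat.find_min' h' ⟨d, hdk, hd⟩)
      by_contra hlt
      rw [not_le, ← hck] at hlt
      exact hk c hlt hc
    have h2 : d = c := Encodable.encode_injective (by rw [hdk, hck, h1])
    rwa [← h2]
  · intro hn
    refine ⟨Nat.find h', ⟨c, hck, hc, hn⟩, fun d hd hg => ?_⟩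
    exact Nat.find_min h' hd ⟨d, rfl, hg⟩

/-- Total degrees are fixed. -/
theorem fixes_total (π : EDeg ≃o EDeg) {F : Set ℕ → Set ℕ} (hF : Measurable F)
    (h : ∀ A, π (deg A) = deg (F A)) (X : ℕ → Bool) : π (deg (gr X)) = deg (gr X) := by
  have h1 : ∀ X : ℕ → Bool, deg (gr X) ≤ π (deg (gr X)) := fun X =>
    increasing π hF (fun x => h _) (fun f => h _) X
  have h1' : ∀ f : ℕ → ℕ, deg (gr f) ≤ π (deg (gr f)) := fun f => by
    rw [← gr_chi_gr]
    exact h1 _
  have key : ∀ A, deg A ≤ π (deg A) → π.symm (deg A) = deg (inv F A) := by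
    intro A hA
    have h2 : ∃ c, Good F c A := by
      obtain ⟨Y, hY⟩ := exists_deg (π.symm (deg A))
      have h3 : ERed Y A := by
        rw [← deg_le, hY]
        exact π.symm_apply_le.2 hA
      obtain ⟨c, rfl⟩ := ered_iff_op.1 h3
      refine ⟨c, ?_⟩
      have h4 : deg (F (op c A)) = deg A := by
        rw [← h, hY, OrderIso.apply_symm_apply]
      exact deg_eq.1 h4
    obtain ⟨c, hc, hinv⟩ := inv_spec h2
    rw [hinv]
    have h4 : deg (F (op c A)) = deg A := deg_eq.2 hc
    rw [← h4, ← h, OrderIso.symm_apply_apply]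
  have h2 := increasing π.symm (meas_inv hF) (fun x => key _ (h1 x)) (fun f => key _ (h1' f)) X
  refine le_antisymm ?_ (h1 X)
  have h3 := π.monotone h2
  rwa [OrderIso.apply_symm_apply] at h3

/-! ### All degrees -/

theorem re_univ : ERed Set.univ (∅ : Set ℕ) := by
  have h : EOp fun _ => (Set.univ : Set ℕ) := pos_re (re_const True)
  exact h.ered ∅

theorem ered_univ (B : Set ℕ) : ERed Set.univ B := by
  have h : EOp fun _ => (Set.univ : Set ℕ) := pos_re (re_const True)
  exact h.ered B

/-- Selman's theorem, for automorphisms which fix the total degrees. -/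
theorem below (π : EDeg ≃o EDeg) (hfix : ∀ f : ℕ → ℕ, π (deg (gr f)) = deg (gr f)) (B : Set ℕ) :
    π (deg B) ≤ deg B := by
  obtain ⟨Y, hY⟩ := exists_deg (π (deg B))
  have hne : (join B Set.univ).Nonempty := ⟨2 * 0 + 1, two_mul_add_mem_join.2 trivial⟩
  obtain ⟨e, he⟩ := (Set.to_countable (join B Set.univ)).exists_eq_range hne
  have h1 : ∀ g : ℕ → ℕ, Function.Surjective g → ERed B (gr (e ∘ g)) := by
    intro g hg
    have h2 : EOp fun J => {n | ∃ k : ℕ, Nat.pair k (2 * n) ∈ J} :=
      pos_ex (P := fun J (q : ℕ × ℕ) => Nat.pair q.2 (2 * q.1) ∈ J)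
        (pos_mem (comp_pair Computable.snd (comp_two_mul.comp Computable.fst)))
    refine ered_iff.2 ⟨_, h2, Set.ext fun n => ?_⟩
    show n ∈ B ↔ ∃ k : ℕ, Nat.pair k (2 * n) ∈ gr (e ∘ g)
    rw [← two_mul_mem_join (A := B) (B := Set.univ), he]
    constructor
    · rintro ⟨i, hi⟩
      obtain ⟨k, rfl⟩ := hg i
      exact ⟨k, mem_gr.2 hi⟩
    · rintro ⟨k, hk⟩
      exact ⟨g k, mem_gr.1 hk⟩
  have h3 : ERed Y (Set.range e) := by
    refine selman (freq_of_res isOpen_univ ⟨fun n => n, trivial⟩ ?_)
    filter_upwards [res_surj] with g hg _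
    rw [← deg_le, hY, ← hfix]
    exact π.monotone (deg_le.2 (h1 g hg))
  rw [← he] at h3
  rw [← hY, deg_le]
  exact h3.trans (join_ered (ERed.refl B) (ered_univ B))

/-- Every automorphism of the enumeration degrees with a Borel presentation is the identity. -/
theorem no_borel (π : EDeg ≃o EDeg) (F : Set ℕ → Set ℕ) (hF : Measurable F)
    (h : ∀ A, π (deg A) = deg (F A)) (a : EDeg) : π a = a := by
  have h1 : ∀ f : ℕ → ℕ, π (deg (gr f)) = deg (gr f) := fun f => by
    rw [← gr_chi_gr]
    exact fixes_total π hF h _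
  have h2 : ∀ f : ℕ → ℕ, π.symm (deg (gr f)) = deg (gr f) := fun f => by
    rw [OrderIso.symm_apply_eq, h1]
  obtain ⟨B, rfl⟩ := exists_deg a
  refine le_antisymm (below π h1 B) ?_
  have h3 := π.monotone (below π.symm h2 B)
  rwa [OrderIso.apply_symm_apply] at h3

end Pool.Agent.EDB
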