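import Pool.Agent.EDB.Defs

/-!
# Graphs, basic reductions, iteration of enumeration operators (for MP_431ff4_lc)
-/

namespace Pool.Agent.EDB

/-! ### Iteration -/

theorem EOp.mono {Θ : Set ℕ → Set ℕ} (hΘ : EOp Θ) {B C : Set ℕ} (h : B ⊆ C) : Θ B ⊆ Θ C :=
  fun _ hx => Pos.mono hΘ h hx

/-- Uniform iteration of an enumeration operator. -/
theorem pos_iter {Θ : Set ℕ → Set ℕ} (hΘ : EOp Θ) :
    Pos fun B (q : ℕ × ℕ) => q.2 ∈ Θ^[q.1] B := by
  have hmono : ∀ {B C : Set ℕ}, B ⊆ C → Θ B ⊆ Θ C := fun h => hΘ.mono h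
  have hcomp : ∀ {B : Set ℕ} {x : ℕ}, x ∈ Θ B →
      ∃ l : List ℕ, (∀ y ∈ l, y ∈ B) ∧ x ∈ Θ {y | y ∈ l} := fun h => Pos.compact hΘ h
  obtain ⟨R, hR, h⟩ := hΘ
  -- a finite set of pairs closed under justification
  let J : Set ℕ → List (ℕ × ℕ) → ℕ × ℕ → Prop := fun B L r =>
    (r.1 = 0 ∧ r.2 ∈ B) ∨ ∃ j, r.1 = j + 1 ∧ r.2 ∈ Θ {y | (j, y) ∈ L}
  have hJ : ∀ B L r, J B L r ↔ (r.1 = 0 ∧ r.2 ∈ B) ∨ ∃ j, r.1 = j + 1 ∧
      ∃ l : List ℕ, (∀ y ∈ l, (j, y) ∈ L) ∧ R (r.2, l) := by
    intro B L r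
    refine or_congr Iff.rfl (exists_congr fun j => and_congr Iff.rfl (h _ _))
  have hP : Pos fun B (t : (ℕ × ℕ) × List (ℕ × ℕ)) => t.1 ∈ t.2 ∧ ∀ r ∈ t.2, J B t.2 r := by
    refine pos_and (pos_re (re_mem Computable.fst Computable.snd)) ?_
    refine pos_ball_list (P := fun B (s : ((ℕ × ℕ) × List (ℕ × ℕ)) × (ℕ × ℕ)) => J B s.1.2 s.2)
      ?_ Computable.snd
    refine Pos.of_eq (P := fun B (s : ((ℕ × ℕ) × List (ℕ × ℕ)) × (ℕ × ℕ)) =>
      (s.2.1 = 0 ∧ s.2.2 ∈ B) ∨ ∃ j, s.2.1 = j + 1 ∧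
      ∃ l : List ℕ, (∀ y ∈ l, (j, y) ∈ s.1.2) ∧ R (s.2.2, l)) ?_ fun B s => (hJ _ _ _).symm
    refine pos_or (pos_and (pos_re (re_eq (Computable.fst.comp Computable.snd)
      (Computable.const 0))) (pos_mem (Computable.snd.comp Computable.snd))) (pos_re ?_)
    refine re_exists (p := fun u : (((ℕ × ℕ) × List (ℕ × ℕ)) × (ℕ × ℕ)) × ℕ =>
      u.1.2.1 = u.2 + 1 ∧ ∃ l : List ℕ, (∀ y ∈ l, (u.2, y) ∈ u.1.1.2) ∧ R (u.1.2.2, l))
      (re_and ?_ ?_)
    · exact re_eq (Computable.fst.comp (Computable.snd.comp Computable.fst))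
        (Computable.succ.comp Computable.snd)
    · refine re_exists (p := fun w : ((((ℕ × ℕ) × List (ℕ × ℕ)) × (ℕ × ℕ)) × ℕ) × List ℕ =>
        (∀ y ∈ w.2, (w.1.2, y) ∈ w.1.1.1.2) ∧ R (w.1.1.2.2, w.2)) (re_and ?_ ?_)
      · refine re_ball_list
          (p := fun v : (((((ℕ × ℕ) × List (ℕ × ℕ)) × (ℕ × ℕ)) × ℕ) × List ℕ) × ℕ =>
          (v.1.1.2, v.2) ∈ v.1.1.1.1.2) (re_mem ?_ ?_) Computable.snd
        · exact (Computable.snd.comp (Computable.fst.comp Computable.fst)).pair Computable.snd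
        · exact Computable.snd.comp (Computable.fst.comp (Computable.fst.comp
            (Computable.fst.comp Computable.fst)))
      · exact re_comp hR ((Computable.snd.comp (Computable.snd.comp (Computable.fst.comp
          Computable.fst))).pair Computable.snd)
  refine (pos_ex (P := fun B (t : (ℕ × ℕ) × List (ℕ × ℕ)) => t.1 ∈ t.2 ∧ ∀ r ∈ t.2, J B t.2 r)
    hP).of_eq fun B q => ?_
  constructor
  · rintro ⟨L, h1, h2⟩
    have key : ∀ k m, (k, m) ∈ L → m ∈ Θ^[k] B := by
      intro k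
      induction k with
      | zero =>
        intro m hm
        rcases h2 _ hm with ⟨-, h3⟩ | ⟨j, h3, -⟩
        · exact h3
        · exact absurd h3 (by simp)
      | succ k ih =>
        intro m hm
        rcases h2 _ hm with ⟨h3, -⟩ | ⟨j, h3, h4⟩
        · exact absurd h3 (by simp)
        · have h5 : j = k := by simpa using h3.symm
          subst h5
          rw [Function.iterate_succ_apply']
          exact hmono (fun y hy => ih y hy) h4
    exact key q.1 q.2 h1
  · have hJm : ∀ {L L' : List (ℕ × ℕ)} {r : ℕ × ℕ}, (∀ z ∈ L, z ∈ L') → J B L r → J B L' r := by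
      rintro L L' r hL (h1 | ⟨j, h1, h2⟩)
      · exact Or.inl h1
      · exact Or.inr ⟨j, h1, hmono (fun y hy => hL _ hy) h2⟩
    have key : ∀ k m, m ∈ Θ^[k] B → ∃ L : List (ℕ × ℕ), (k, m) ∈ L ∧ ∀ r ∈ L, J B L r := by
      intro k
      induction k with
      | zero =>
        intro m hm
        refine ⟨[(0, m)], by simp, ?_⟩
        intro r hr
        rw [List.mem_singleton] at hr
        subst hr
        exact Or.inl ⟨rfl, hm⟩
      | succ k ih =>
        intro m hm
        rw [Function.iterate_succ_apply'] at hm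
        obtain ⟨l, h1, h2⟩ := hcomp hm
        have h3 : ∀ y, ∃ L : List (ℕ × ℕ), y ∈ l → (k, y) ∈ L ∧ ∀ r ∈ L, J B L r := by
          intro y
          by_cases hy : y ∈ l
          · obtain ⟨L, hL⟩ := ih y (h1 y hy)
            exact ⟨L, fun _ => hL⟩
          · exact ⟨[], fun h => absurd h hy⟩
        choose L hL using h3
        refine ⟨(k + 1, m) :: l.flatMap L, by simp, ?_⟩
        intro r hr
        rcases List.mem_cons.1 hr with rfl | hr
        · refine Or.inr ⟨k, rfl, hmono ?_ h2⟩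
          intro y hy
          exact List.mem_cons_of_mem _ (List.mem_flatMap.2 ⟨y, hy, (hL y hy).1⟩)
        · obtain ⟨y, hy, hr⟩ := List.mem_flatMap.1 hr
          exact hJm (fun z hz => List.mem_cons_of_mem _ (List.mem_flatMap.2 ⟨y, hy, hz⟩))
            ((hL y hy).2 r hr)
    intro hq
    exact key q.1 q.2 hq

/-- A sequence obtained by iterating an enumeration operator with a fixed parameter. -/
theorem seq_ered {Θ : Set ℕ → Set ℕ} (hΘ : EOp Θ) {y : ℕ → Set ℕ} {p : Set ℕ}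
    (h : ∀ k, y (k + 1) = Θ (join (y k) p)) {n : ℕ} :
    ERed {k | n ∈ y k} (join (y 0) p) := by
  let Φ : Set ℕ → Set ℕ := fun B => join (Θ B) {n | 2 * n + 1 ∈ B}
  have hΦ : EOp Φ := eop_join hΘ eop_right
  have key : ∀ k, Φ^[k] (join (y 0) p) = join (y k) p := by
    intro k
    induction k with
    | zero => rfl
    | succ k ih =>
      rw [Function.iterate_succ_apply', ih]
      show join (Θ (join (y k) p)) {n | 2 * n + 1 ∈ join (y k) p} = join (y (k + 1)) p
      rw [h k]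
      congr 1
      exact Set.ext fun m => two_mul_add_mem_join
  have h1 : EOp fun B => {k | 2 * n ∈ Φ^[k] B} :=
    pos_comp (pos_iter hΦ) (f := fun k : ℕ => (k, 2 * n))
      (Computable.id.pair (Computable.const _))
  refine ered_iff.2 ⟨_, h1, Set.ext fun k => ?_⟩
  show n ∈ y k ↔ 2 * n ∈ Φ^[k] (join (y 0) p)
  rw [key, two_mul_mem_join]

/-! ### Graphs -/

/-- The graph of a function into a coded type. -/
def gr {α : Type} [Primcodable α] (x : ℕ → α) : Set ℕ :=
  {m | Encodable.encode (x m.unpair.1) = m.unpair.2}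

theorem mem_gr {α : Type} [Primcodable α] {x : ℕ → α} {i v : ℕ} :
    Nat.pair i v ∈ gr x ↔ Encodable.encode (x i) = v := by
  show Encodable.encode (x (Nat.pair i v).unpair.1) = (Nat.pair i v).unpair.2 ↔ _
  rw [Nat.unpair_pair]

theorem mem_gr' {α : Type} [Primcodable α] {x : ℕ → α} {m : ℕ} :
    m ∈ gr x ↔ Encodable.encode (x m.unpair.1) = m.unpair.2 := Iff.rfl

/-- Two elements: from the left and from the right part of a join. -/
theorem pos_two {α β : Type} [Primcodable α] [Primcodable β] {u v : α × β → ℕ}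
    (hu : Computable u) (hv : Computable v) :
    Pos fun J (x : α) => ∃ b : β, 2 * u (x, b) ∈ J ∧ 2 * v (x, b) + 1 ∈ J :=
  pos_ex (P := fun J (q : α × β) => 2 * u q ∈ J ∧ 2 * v q + 1 ∈ J)
    (pos_and (pos_mem (comp_two_mul.comp hu)) (pos_mem (comp_two_mul_add.comp hv)))

theorem comp_pair {α : Type} [Primcodable α] {u v : α → ℕ} (hu : Computable u)
    (hv : Computable v) : Computable fun x => Nat.pair (u x) (v x) :=
  Primrec₂.natPair.to_comp.comp hu hv

theorem comp_un1 {α : Type} [Primcodable α] {u : α → ℕ} (hu : Computable u) :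
    Computable fun x => (u x).unpair.1 :=
  Computable.fst.comp (Computable.unpair.comp hu)

theorem comp_un2 {α : Type} [Primcodable α] {u : α → ℕ} (hu : Computable u) :
    Computable fun x => (u x).unpair.2 :=
  Computable.snd.comp (Computable.unpair.comp hu)

theorem gr_comp_ered {α : Type} [Primcodable α] (A : ℕ → α) (f : ℕ → ℕ) :
    ERed (gr (A ∘ f)) (join (gr A) (gr f)) := by
  have h : EOp fun J => {m | ∃ v : ℕ, 2 * Nat.pair v m.unpair.2 ∈ J ∧
      2 * Nat.pair m.unpair.1 v + 1 ∈ J} :=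
    pos_two (u := fun q : ℕ × ℕ => Nat.pair q.2 q.1.unpair.2)
      (v := fun q : ℕ × ℕ => Nat.pair q.1.unpair.1 q.2)
      (comp_pair Computable.snd (comp_un2 Computable.fst))
      (comp_pair (comp_un1 Computable.fst) Computable.snd)
  refine ered_iff.2 ⟨_, h, Set.ext fun m => ?_⟩
  show Encodable.encode ((A ∘ f) m.unpair.1) = m.unpair.2 ↔
    ∃ v : ℕ, 2 * Nat.pair v m.unpair.2 ∈ join (gr A) (gr f) ∧
      2 * Nat.pair m.unpair.1 v + 1 ∈ join (gr A) (gr f)
  simp only [two_mul_mem_join, two_mul_add_mem_join, mem_gr]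
  constructor
  · intro h
    exact ⟨f m.unpair.1, h, rfl⟩
  · rintro ⟨v, h1, h2⟩
    have h3 : f m.unpair.1 = v := h2
    rw [Function.comp_apply, h3]
    exact h1

theorem gr_ered_comp {α : Type} [Primcodable α] (A : ℕ → α) {f : ℕ → ℕ}
    (hf : Function.Surjective f) : ERed (gr A) (join (gr (A ∘ f)) (gr f)) := by
  have h : EOp fun J => {m | ∃ k : ℕ, 2 * Nat.pair k m.unpair.2 ∈ J ∧
      2 * Nat.pair k m.unpair.1 + 1 ∈ J} :=
    pos_two (u := fun q : ℕ × ℕ => Nat.pair q.2 q.1.unpair.2)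
      (v := fun q : ℕ × ℕ => Nat.pair q.2 q.1.unpair.1)
      (comp_pair Computable.snd (comp_un2 Computable.fst))
      (comp_pair Computable.snd (comp_un1 Computable.fst))
  refine ered_iff.2 ⟨_, h, Set.ext fun m => ?_⟩
  show Encodable.encode (A m.unpair.1) = m.unpair.2 ↔
    ∃ k : ℕ, 2 * Nat.pair k m.unpair.2 ∈ join (gr (A ∘ f)) (gr f) ∧
      2 * Nat.pair k m.unpair.1 + 1 ∈ join (gr (A ∘ f)) (gr f)
  simp only [two_mul_mem_join, two_mul_add_mem_join, mem_gr]
  constructor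
  · intro h
    obtain ⟨k, hk⟩ := hf m.unpair.1
    exact ⟨k, by rw [Function.comp_apply, hk]; exact h, hk⟩
  · rintro ⟨k, h1, h2⟩
    have h3 : f k = m.unpair.1 := h2
    rw [Function.comp_apply, h3] at h1
    exact h1

theorem gr_left_ered {s : ℕ → ℕ} (hs : Computable s) (f : ℕ → ℕ) :
    ERed (gr (s ∘ f)) (gr f) := by
  have h : EOp fun J => {m | ∃ v : ℕ, Nat.pair m.unpair.1 v ∈ J ∧ s v = m.unpair.2} :=
    pos_ex (P := fun J (q : ℕ × ℕ) => Nat.pair q.1.unpair.1 q.2 ∈ J ∧ s q.2 = q.1.unpair.2)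
      (pos_and (pos_mem (comp_pair (comp_un1 Computable.fst) Computable.snd))
        (pos_re (re_eq (hs.comp Computable.snd) (comp_un2 Computable.fst))))
  refine ered_iff.2 ⟨_, h, Set.ext fun m => ?_⟩
  show s (f m.unpair.1) = m.unpair.2 ↔
    ∃ v : ℕ, Nat.pair m.unpair.1 v ∈ gr f ∧ s v = m.unpair.2
  simp only [mem_gr]
  constructor
  · intro h
    exact ⟨f m.unpair.1, rfl, h⟩
  · rintro ⟨v, h1, h2⟩
    have h3 : f m.unpair.1 = v := h1
    rw [h3]
    exact h2

/-- `{k | x k = b}`. -/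
def lev {α : Type} (x : ℕ → α) (b : α) : Set ℕ := {k | x k = b}

theorem lev_ered {α : Type} [Primcodable α] (x : ℕ → α) (b : α) : ERed (lev x b) (gr x) := by
  have h : EOp fun J => {k | Nat.pair k (Encodable.encode b) ∈ J} :=
    pos_mem (comp_pair Computable.id (Computable.const _))
  refine ered_iff.2 ⟨_, h, Set.ext fun k => ?_⟩
  show x k = b ↔ Nat.pair k (Encodable.encode b) ∈ gr x
  rw [mem_gr, Encodable.encode_inj]

/-- Reindexing along a computable function. -/
theorem preimage_ered {h : ℕ → ℕ} (hh : Computable h) (B : Set ℕ) : ERed {k | h k ∈ B} B :=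
  EOp.ered (Θ := fun B => {k | h k ∈ B}) (pos_mem hh) B

/-- A binary sequence from its two level sets. -/
theorem gr_ered_lev (x : ℕ → Bool) (b : Bool) :
    ERed (gr x) (join (lev x b) (lev x (!b))) := by
  have h : EOp fun J => {m | (m.unpair.2 = Encodable.encode b ∧ 2 * m.unpair.1 ∈ J) ∨
      (m.unpair.2 = Encodable.encode (!b) ∧ 2 * m.unpair.1 + 1 ∈ J)} := by
    refine pos_or (pos_and (pos_re (re_eq (comp_un2 Computable.id) (Computable.const _)))
      (pos_mem (comp_two_mul.comp (comp_un1 Computable.id)))) (pos_and (pos_re (re_eq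
      (comp_un2 Computable.id) (Computable.const _)))
      (pos_mem (comp_two_mul_add.comp (comp_un1 Computable.id))))
  refine ered_iff.2 ⟨_, h, Set.ext fun m => ?_⟩
  show Encodable.encode (x m.unpair.1) = m.unpair.2 ↔
    (m.unpair.2 = Encodable.encode b ∧ 2 * m.unpair.1 ∈ join (lev x b) (lev x (!b))) ∨
      (m.unpair.2 = Encodable.encode (!b) ∧ 2 * m.unpair.1 + 1 ∈ join (lev x b) (lev x (!b)))
  rw [two_mul_mem_join, two_mul_add_mem_join]
  show Encodable.encode (x m.unpair.1) = m.unpair.2 ↔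
    (m.unpair.2 = Encodable.encode b ∧ x m.unpair.1 = b) ∨
      (m.unpair.2 = Encodable.encode (!b) ∧ x m.unpair.1 = !b)
  constructor
  · intro h
    rw [← h, Encodable.encode_inj, Encodable.encode_inj]
    cases x m.unpair.1 <;> cases b <;> simp
  · rintro (⟨h1, h2⟩ | ⟨h1, h2⟩)
    · rw [h1, h2]
    · rw [h1, h2]

/-- Pointwise exclusive or. -/
def xr (x y : ℕ → Bool) : ℕ → Bool := fun k => xor (x k) (y k)

theorem xr_self (x y : ℕ → Bool) : xr x (xr x y) = y := by
  funext k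
  simp [xr]

theorem gr_xr_ered (x y : ℕ → Bool) : ERed (gr (xr x y)) (join (gr x) (gr y)) := by
  have h : EOp fun J => {m | ∃ b : Bool × Bool,
      (2 * Nat.pair m.unpair.1 (Encodable.encode b.1) ∈ J ∧
      2 * Nat.pair m.unpair.1 (Encodable.encode b.2) + 1 ∈ J) ∧
      Encodable.encode (xor b.1 b.2) = m.unpair.2} := by
    refine pos_ex (P := fun J (q : ℕ × (Bool × Bool)) =>
      (2 * Nat.pair q.1.unpair.1 (Encodable.encode q.2.1) ∈ J ∧
      2 * Nat.pair q.1.unpair.1 (Encodable.encode q.2.2) + 1 ∈ J) ∧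
      Encodable.encode (xor q.2.1 q.2.2) = q.1.unpair.2) (pos_and (pos_and ?_ ?_) (pos_re ?_))
    · exact pos_mem (comp_two_mul.comp (comp_pair (comp_un1 Computable.fst)
        (Computable.encode.comp (Computable.fst.comp Computable.snd))))
    · exact pos_mem (comp_two_mul_add.comp (comp_pair (comp_un1 Computable.fst)
        (Computable.encode.comp (Computable.snd.comp Computable.snd))))
    · refine re_eq (Computable.encode.comp ?_) (comp_un2 Computable.fst)
      exact (Primrec.dom_finite fun b : Bool × Bool => xor b.1 b.2).to_comp.comp Computable.snd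
  refine ered_iff.2 ⟨_, h, Set.ext fun m => ?_⟩
  show Encodable.encode (xor (x m.unpair.1) (y m.unpair.1)) = m.unpair.2 ↔
    ∃ b : Bool × Bool,
      (2 * Nat.pair m.unpair.1 (Encodable.encode b.1) ∈ join (gr x) (gr y) ∧
      2 * Nat.pair m.unpair.1 (Encodable.encode b.2) + 1 ∈ join (gr x) (gr y)) ∧
      Encodable.encode (xor b.1 b.2) = m.unpair.2
  simp only [two_mul_mem_join, two_mul_add_mem_join, mem_gr, Encodable.encode_inj]
  constructor
  · intro h
    exact ⟨(x m.unpair.1, y m.unpair.1), ⟨rfl, rfl⟩, h⟩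
  · rintro ⟨b, ⟨h1, h2⟩, h3⟩
    rw [h1, h2]
    exact h3

theorem gr_not_ered (x : ℕ → Bool) : ERed (gr fun k => !(x k)) (gr x) := by
  have h : EOp fun J => {m | ∃ b : Bool, Nat.pair m.unpair.1 (Encodable.encode b) ∈ J ∧
      Encodable.encode (!b) = m.unpair.2} := by
    refine pos_ex (P := fun J (q : ℕ × Bool) =>
      Nat.pair q.1.unpair.1 (Encodable.encode q.2) ∈ J ∧
      Encodable.encode (!q.2) = q.1.unpair.2) (pos_and ?_ (pos_re ?_))
    · exact pos_mem (comp_pair (comp_un1 Computable.fst)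
        (Computable.encode.comp Computable.snd))
    · refine re_eq (Computable.encode.comp ?_) (comp_un2 Computable.fst)
      exact Primrec.not.to_comp.comp Computable.snd
  refine ered_iff.2 ⟨_, h, Set.ext fun m => ?_⟩
  show Encodable.encode (!(x m.unpair.1)) = m.unpair.2 ↔
    ∃ b : Bool, Nat.pair m.unpair.1 (Encodable.encode b) ∈ gr x ∧
      Encodable.encode (!b) = m.unpair.2
  simp only [mem_gr, Encodable.encode_inj]
  constructor
  · intro h
    exact ⟨_, rfl, h⟩
  · rintro ⟨b, h1, h3⟩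
    rw [h1]
    exact h3

end Pool.Agent.EDB
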